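import Mathlib

set_option autoImplicit false

/-! # A comparison lemma for partial resolutions -/

namespace Pool.Agent.N271.HC

section
variable {Λ : Type} [Ring Λ]

theorem lift_ex {P M N : Type} [AddCommGroup P] [Module Λ P] [Module.Projective Λ P]
    [AddCommGroup M] [Module Λ M] [AddCommGroup N] [Module Λ N] (f : M →ₗ[Λ] N)
    (g : P →ₗ[Λ] N) (h : ∀ p, g p ∈ LinearMap.range f) : ∃ k : P →ₗ[Λ] M, ∀ p, f (k p) = g p := by
  obtain ⟨k, hk⟩ := Module.projective_lifting_property f.rangeRestrict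
    (g.codRestrict (LinearMap.range f) h) f.surjective_rangeRestrict
  refine ⟨k, fun p => ?_⟩
  have := LinearMap.congr_fun hk p
  exact congrArg Subtype.val this

/-- If the cokernel of `δ : F1 → F0` has a partial projective resolution with finitely generated
second term, then the kernel of `δ` is finitely generated. -/
theorem schanuel {T P0 P1 P2 F0 F1 : Type} [AddCommGroup T] [Module Λ T]
    [AddCommGroup P0] [Module Λ P0] [AddCommGroup P1] [Module Λ P1] [AddCommGroup P2] [Module Λ P2]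
    [AddCommGroup F0] [Module Λ F0] [AddCommGroup F1] [Module Λ F1]
    [Module.Projective Λ P0] [Module.Projective Λ P1] [Module.Projective Λ F0]
    [Module.Projective Λ F1] [Module.Finite Λ P2] [Module.Finite Λ F1]
    (ε : P0 →ₗ[Λ] T) (d1 : P1 →ₗ[Λ] P0) (d2 : P2 →ₗ[Λ] P1)
    (ε' : F0 →ₗ[Λ] T) (δ : F1 →ₗ[Λ] F0)
    (hε : Function.Surjective ε) (h0 : ∀ p, ε p = 0 ↔ p ∈ LinearMap.range d1)
    (h1 : ∀ p, d1 p = 0 ↔ p ∈ LinearMap.range d2)
    (hε' : Function.Surjective ε') (h0' : ∀ p, ε' p = 0 ↔ p ∈ LinearMap.range δ) :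
    (LinearMap.ker δ).FG := by
  obtain ⟨f0, hf0⟩ := lift_ex ε ε' (fun p => hε _)
  obtain ⟨f1, hf1⟩ := lift_ex d1 (f0 ∘ₗ δ) (fun p => by
    rw [← h0, LinearMap.comp_apply, hf0, h0']
    exact ⟨p, rfl⟩)
  obtain ⟨g0, hg0⟩ := lift_ex ε' ε (fun p => hε' _)
  obtain ⟨g1, hg1⟩ := lift_ex δ (g0 ∘ₗ d1) (fun p => by
    rw [← h0', LinearMap.comp_apply, hg0, h0]
    exact ⟨p, rfl⟩)
  obtain ⟨k0, hk0⟩ := lift_ex δ (LinearMap.id - g0 ∘ₗ f0) (fun p => by
    rw [← h0', LinearMap.sub_apply, LinearMap.comp_apply, LinearMap.id_apply, map_sub, hg0, hf0,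
      sub_self])
  let k : F1 →ₗ[Λ] F1 := LinearMap.id - g1 ∘ₗ f1 - k0 ∘ₗ δ
  have hk : ∀ z, δ (k z) = 0 := by
    intro z
    simp only [k, LinearMap.sub_apply, LinearMap.comp_apply, LinearMap.id_apply, map_sub]
    have e1 := hg1 (f1 z)
    have e2 := hf1 z
    have e3 := hk0 (δ z)
    simp only [LinearMap.comp_apply, LinearMap.sub_apply, LinearMap.id_apply] at e1 e2 e3
    rw [e1, e2, e3]
    abel
  have heq : LinearMap.ker δ = LinearMap.range k ⊔ LinearMap.range (g1 ∘ₗ d2) := by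
    apply le_antisymm
    · intro z hz
      rw [LinearMap.mem_ker] at hz
      have e2 := hf1 z
      simp only [LinearMap.comp_apply, hz, map_zero] at e2
      obtain ⟨p, hp⟩ := (h1 _).1 e2
      have : z = k z + (g1 ∘ₗ d2) p := by
        simp only [k, LinearMap.sub_apply, LinearMap.comp_apply, LinearMap.id_apply, hz, map_zero,
          hp]
        abel
      rw [this]
      exact Submodule.add_mem_sup ⟨_, rfl⟩ ⟨_, rfl⟩
    · refine sup_le ?_ ?_
      · rintro _ ⟨z, rfl⟩
        exact hk z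
      · rintro _ ⟨p, rfl⟩
        rw [LinearMap.mem_ker]
        have e1 := hg1 (d2 p)
        simp only [LinearMap.comp_apply] at e1 ⊢
        rw [e1, (h1 _).2 ⟨p, rfl⟩, map_zero]
  rw [heq]
  exact Submodule.FG.sup (Module.Finite.iff_fg.1 (Module.Finite.range k))
    (Module.Finite.iff_fg.1 (Module.Finite.range (g1 ∘ₗ d2)))

end

end Pool.Agent.N271.HC
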