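import Pool.Agent.N271.HC.Pb

set_option autoImplicit false
set_option linter.unusedSectionVars false

/-! # Left ideals of subgroups and cosets -/

namespace Pool.Agent.N271.HC

open Pool.Agent.W326.DU Pool.Agent.Y66.HC

section
variable {Γ : Type} [Group Γ]

/-- push-forward to the cosets -/
noncomputable def cosP (C : Subgroup Γ) : ZG Γ →+ ((Γ ⧸ C) →₀ ℤ) :=
  (Finsupp.mapDomain.addMonoidHom (fun g : Γ => (QuotientGroup.mk g : Γ ⧸ C))).comp
    MonoidAlgebra.coeffAddEquiv.toAddMonoidHom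

theorem cosP_single (C : Subgroup Γ) (g : Γ) (n : ℤ) :
    cosP C (MonoidAlgebra.single g n) = Finsupp.single (QuotientGroup.mk g) n := by
  simp [cosP]

theorem cosP_of (C : Subgroup Γ) (g : Γ) :
    cosP C (MonoidAlgebra.of ℤ Γ g) = Finsupp.single (QuotientGroup.mk g) 1 := by
  rw [MonoidAlgebra.of_apply, cosP_single]

theorem cosP_mul (C : Subgroup Γ) (z : ZG Γ) (c : Γ) (hc : c ∈ C) :
    cosP C (z * (MonoidAlgebra.of ℤ Γ c - 1)) = 0 := by
  have key : (cosP C).comp (AddMonoidHom.mulRight (MonoidAlgebra.of ℤ Γ c)) = cosP C := by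
    apply MonoidAlgebra.addMonoidHom_ext
    intro g n
    change cosP C (MonoidAlgebra.single g n * MonoidAlgebra.of ℤ Γ c) =
      cosP C (MonoidAlgebra.single g n)
    rw [MonoidAlgebra.of_apply, MonoidAlgebra.single_mul_single, mul_one, cosP_single, cosP_single]
    congr 1
    rw [QuotientGroup.eq]
    simpa using hc
  rw [mul_sub, mul_one, map_sub]
  have := DFunLike.congr_fun key z
  change cosP C (z * MonoidAlgebra.of ℤ Γ c) = cosP C z at this
  rw [this, sub_self]

theorem cosP_IL (C : Subgroup Γ) (y : ZG Γ) (hy : y ∈ IL ℤ (C : Set Γ)) : cosP C y = 0 := by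
  have key : ∀ z : ZG Γ, cosP C (z * y) = 0 := by
    unfold IL at hy
    induction hy using Submodule.span_induction with
    | mem x hx =>
      obtain ⟨c, hc, rfl⟩ := hx
      exact fun z => cosP_mul C z c hc
    | zero => intro z; rw [mul_zero, map_zero]
    | add a b _ _ ha hb => intro z; rw [mul_add, map_add, ha, hb, add_zero]
    | smul a x _ hx => intro z; rw [smul_eq_mul, ← mul_assoc]; exact hx _
  simpa using key 1

theorem IL_of_cosP (C : Subgroup Γ) (y : ZG Γ) (hy : cosP C y = 0) : y ∈ IL ℤ (C : Set Γ) := by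
  let rp : ((Γ ⧸ C) →₀ ℤ) →+ (ZG Γ ⧸ IL ℤ (C : Set Γ)) :=
    Finsupp.liftAddHom (fun c : Γ ⧸ C =>
      (((IL ℤ (C : Set Γ)).mkQ.toAddMonoidHom).comp
        (MonoidAlgebra.singleAddHom c.out : ℤ →+ ZG Γ)))
  have key : rp.comp (cosP C) = (IL ℤ (C : Set Γ)).mkQ.toAddMonoidHom := by
    apply MonoidAlgebra.addMonoidHom_ext
    intro g n
    change rp (cosP C (MonoidAlgebra.single g n)) = (IL ℤ (C : Set Γ)).mkQ (MonoidAlgebra.single g n)
    rw [cosP_single]
    have h1 : rp (Finsupp.single (QuotientGroup.mk g : Γ ⧸ C) n) =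
        (IL ℤ (C : Set Γ)).mkQ (MonoidAlgebra.single (QuotientGroup.mk g : Γ ⧸ C).out n) := by
      simp [rp]
    rw [h1]
    change Submodule.Quotient.mk _ = Submodule.Quotient.mk _
    rw [Submodule.Quotient.eq]
    obtain ⟨c, hc⟩ := QuotientGroup.mk_out_eq_mul C g
    rw [hc]
    have h2 : (MonoidAlgebra.single (g * (c : Γ)) n : ZG Γ) - MonoidAlgebra.single g n =
        MonoidAlgebra.single g n • (MonoidAlgebra.of ℤ Γ (c : Γ) - 1) := by
      rw [smul_eq_mul, mul_sub, mul_one, MonoidAlgebra.of_apply, MonoidAlgebra.single_mul_single,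
        mul_one]
    rw [h2]
    exact Submodule.smul_mem _ _ (Submodule.subset_span ⟨c, c.2, rfl⟩)
  have h := DFunLike.congr_fun key y
  change rp (cosP C y) = (IL ℤ (C : Set Γ)).mkQ y at h
  rw [hy, map_zero] at h
  exact (Submodule.Quotient.mk_eq_zero _).1 h.symm

/-- transfer between subgroups with the same equivalence relation on a support -/
theorem cosP_transfer (C C' : Subgroup Γ) (y : ZG Γ) (hy : cosP C y = 0)
    (h : ∀ p ∈ y.coeff.support, ∀ p' ∈ y.coeff.support, p⁻¹ * p' ∈ C → p⁻¹ * p' ∈ C')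
    (hle : C' ≤ C) :
    cosP C' y = 0 := by
  classical
  -- evaluate at each coset
  have e1 : ∀ (D : Subgroup Γ) (g : Γ), (cosP D y) (QuotientGroup.mk g) =
      ∑ p ∈ y.coeff.support.filter (fun p => (QuotientGroup.mk p : Γ ⧸ D) = QuotientGroup.mk g),
        y.coeff p := by
    intro D g
    change (Finsupp.mapDomain (fun g : Γ => (QuotientGroup.mk g : Γ ⧸ D)) y.coeff) _ = _
    rw [Finsupp.mapDomain, Finsupp.sum_apply, Finsupp.sum, Finset.sum_filter]
    refine Finset.sum_congr rfl fun p _ => ?_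
    rw [Finsupp.single_apply]
  ext c
  obtain ⟨g, rfl⟩ := QuotientGroup.mk_surjective c
  rw [e1]
  by_cases hg : ∃ p ∈ y.coeff.support, (QuotientGroup.mk p : Γ ⧸ C') = QuotientGroup.mk g
  · obtain ⟨p, hp, hpg⟩ := hg
    have h2 := e1 C p
    rw [hy] at h2
    rw [← hpg]
    have h3 : y.coeff.support.filter (fun p' => (QuotientGroup.mk p' : Γ ⧸ C') = QuotientGroup.mk p)
        = y.coeff.support.filter (fun p' => (QuotientGroup.mk p' : Γ ⧸ C) = QuotientGroup.mk p) := by
      apply Finset.filter_congr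
      intro p' hp'
      rw [QuotientGroup.eq, QuotientGroup.eq]
      constructor
      · exact fun h => hle h
      · exact fun h' => h p' hp' p hp h'
    rw [h3, ← h2]
    rfl
  · rw [Finset.filter_false_of_mem, Finset.sum_empty]
    · rfl
    · intro p hp h'
      exact hg ⟨p, hp, h'⟩

/-- **finite generation of `C`** -/
theorem fg_of_coef {ι : Type} [Fintype ι] [DecidableEq ι] (x : ι → Γ) (j₀ : ι) (hfg : (RM x).FG) (C : Subgroup Γ)
    (h1 : ∀ r ∈ RM x, r j₀ ∈ IL ℤ (C : Set Γ))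
    (h2 : ∀ c ∈ C, ∃ r ∈ RM x, r j₀ = 1 - MonoidAlgebra.of ℤ Γ c) : C.FG := by
  classical
  obtain ⟨S, hS⟩ := hfg
  let T : Finset Γ := S.biUnion (fun r => ((r j₀).coeff.support ×ˢ (r j₀).coeff.support).image
    (fun p => p.1⁻¹ * p.2))
  let T' : Finset Γ := T.filter (fun g => g ∈ C)
  have hT' : ((T' : Set Γ)) ⊆ C := by
    intro g hg
    exact (Finset.mem_filter.1 hg).2
  have hle : Subgroup.closure (T' : Set Γ) ≤ C := (Subgroup.closure_le _).2 hT'
  refine ⟨T', le_antisymm hle ?_⟩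
  have h3 : ∀ r ∈ RM x, r j₀ ∈ IL ℤ ((Subgroup.closure (T' : Set Γ) : Subgroup Γ) : Set Γ) := by
    intro r hr
    have hr' : r ∈ Submodule.span (ZG Γ) (S : Set (ι → ZG Γ)) := by rw [hS]; exact hr
    induction hr' using Submodule.span_induction with
    | mem r hrS =>
      apply IL_of_cosP
      apply cosP_transfer C _ _ (cosP_IL C _ (h1 r hr)) _ hle
      intro p hp p' hp' hc
      apply Subgroup.subset_closure
      refine Finset.mem_coe.2 (Finset.mem_filter.2 ⟨?_, hc⟩)
      exact Finset.mem_biUnion.2 ⟨r, hrS, Finset.mem_image.2 ⟨(p, p'),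
        Finset.mem_product.2 ⟨hp, hp'⟩, rfl⟩⟩
    | zero => exact Submodule.zero_mem _
    | add a b ha' hb' ha hb =>
      have ha2 : a ∈ RM x := by rw [← hS]; exact ha'
      have hb2 : b ∈ RM x := by rw [← hS]; exact hb'
      exact Submodule.add_mem _ (ha ha2) (hb hb2)
    | smul a r hr2 ih =>
      have hr3 : r ∈ RM x := by rw [← hS]; exact hr2
      exact Submodule.smul_mem _ a (ih hr3)
  intro c hc
  obtain ⟨r, hr, hrc⟩ := h2 c hc
  have h4 := cosP_IL _ _ (h3 r hr)
  rw [hrc, map_sub, cosP_of] at h4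
  have h5 : cosP (Subgroup.closure (T' : Set Γ)) (1 : ZG Γ) =
      Finsupp.single (QuotientGroup.mk (1 : Γ)) 1 := by
    rw [← cosP_of, (MonoidAlgebra.of ℤ Γ).map_one]
  rw [h5, sub_eq_zero] at h4
  have h6 := Finsupp.single_left_injective (one_ne_zero) h4
  rw [QuotientGroup.eq] at h6
  simpa using h6

end

end Pool.Agent.N271.HC
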