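import Pool.Agent.N271.HC.M2
import Pool.Agent.W304.DU.RG

set_option autoImplicit false

/-! # Derivations and relation modules -/

namespace Pool.Agent.N271.HC

open CategoryTheory Pool.Agent.W326.DU Pool.Agent.Y66.HC Pool.Agent.Y448.HC

/-- the semidirect product of `G` and a `ℤG`-module -/
@[ext] structure AF (G M : Type) where
  g : G
  m : M

namespace AF
variable {G M : Type} [Group G] [AddCommGroup M] [Module (ZG G) M]

/-- the action -/
noncomputable abbrev ac (g : G) (m : M) : M := MonoidAlgebra.of ℤ G g • m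

theorem ac_ac (g h : G) (m : M) : ac g (ac h m) = ac (g * h) m := by
  change MonoidAlgebra.of ℤ G g • (MonoidAlgebra.of ℤ G h • m) = MonoidAlgebra.of ℤ G (g * h) • m
  rw [smul_smul, ← map_mul]

theorem ac_one (m : M) : ac (1 : G) m = m := by
  change MonoidAlgebra.of ℤ G 1 • m = m
  rw [map_one, one_smul]

noncomputable instance : Mul (AF G M) := ⟨fun a b => ⟨a.g * b.g, a.m + ac a.g b.m⟩⟩
instance : One (AF G M) := ⟨⟨1, 0⟩⟩
noncomputable instance : Inv (AF G M) := ⟨fun a => ⟨a.g⁻¹, -ac a.g⁻¹ a.m⟩⟩

theorem mul_g (a b : AF G M) : (a * b).g = a.g * b.g := rfl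
theorem mul_m (a b : AF G M) : (a * b).m = a.m + ac a.g b.m := rfl
theorem one_g : (1 : AF G M).g = 1 := rfl
theorem one_m : (1 : AF G M).m = 0 := rfl
theorem inv_g (a : AF G M) : a⁻¹.g = a.g⁻¹ := rfl
theorem inv_m (a : AF G M) : a⁻¹.m = -ac a.g⁻¹ a.m := rfl

noncomputable instance : Group (AF G M) :=
  Group.ofLeftAxioms
    (by
      intro a b c
      ext
      · simp only [mul_g, mul_assoc]
      · simp only [mul_g, mul_m, add_assoc]
        rw [show ac a.g (b.m + ac b.g c.m) = ac a.g b.m + ac a.g (ac b.g c.m) from smul_add _ _ _,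
          ac_ac])
    (by
      intro a
      ext
      · simp only [mul_g, one_g, one_mul]
      · simp only [mul_m, one_g, one_m, ac_one, zero_add])
    (by
      intro a
      ext
      · simp only [mul_g, inv_g, one_g, inv_mul_cancel]
      · simp only [mul_m, inv_g, inv_m, one_m, neg_add_cancel])

/-- the projection -/
noncomputable def fst : AF G M →* G where
  toFun a := a.g
  map_one' := rfl
  map_mul' _ _ := rfl

end AF

section
variable {G : Type} [Group G]

/-- the derivation attached to a section -/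
theorem der_of_sec {M : Type} [AddCommGroup M] [Module (ZG G) M] (s : G →* AF G M)
    (hs : ∀ g, (s g).g = g) (g h : G) :
    (s (g * h)).m = (s g).m + MonoidAlgebra.of ℤ G g • (s h).m := by
  rw [map_mul, AF.mul_m, hs]

/-- evaluation of a family with values in the quotient -/
theorem sum_smul_mk {ι : Type} [Fintype ι] [DecidableEq ι] (L : Submodule (ZG G) (ι → ZG G))
    (c : ι → ZG G) :
    ∑ i, c i • (L.mkQ (Pi.single i 1)) = L.mkQ c := by
  have : c = ∑ i, c i • (Pi.single i 1 : ι → ZG G) := by
    funext j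
    rw [Finset.sum_apply]
    simp only [Pi.smul_apply, smul_eq_mul]
    rw [Finset.sum_eq_single j]
    · simp
    · intro i _ hi
      rw [Pi.single_eq_of_ne (Ne.symm hi), mul_zero]
    · intro h; exact absurd (Finset.mem_univ _) h
  conv_rhs => rw [this]
  rw [map_sum]
  simp only [map_smul]

/-- a derivation into any module kills the relation module -/
theorem rm_kill {ι : Type} [Fintype ι] (x : ι → G) {M : Type} [AddCommGroup M]
    [Module (ZG G) M] (s : G →* AF G M) (hs : ∀ g, (s g).g = g) (c : ι → ZG G) (hc : c ∈ RM x) :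
    ∑ i, c i • (s (x i)).m = 0 := by
  have h1 : fox x c = 0 := hc
  have h2 : ∑ i, c i * (MonoidAlgebra.of ℤ G (x i) - 1) = 0 := h1
  have h3 := congrArg (Pool.Agent.W304.DU.RG.D (R := ℤ) (fun g => (s g).m)) h2
  rw [map_sum, map_zero] at h3
  rw [← h3]
  refine Finset.sum_congr rfl fun i _ => ?_
  rw [Pool.Agent.W304.DU.RG.D_mul_sub _ (der_of_sec s hs)]

/-- upper bound for the relation module -/
theorem rm_le {ι : Type} [Fintype ι] [DecidableEq ι] (x : ι → G)
    (L : Submodule (ZG G) (ι → ZG G)) (s : G →* AF G ((ι → ZG G) ⧸ L)) (hs : ∀ g, (s g).g = g)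
    (hx : ∀ i, (s (x i)).m = L.mkQ (Pi.single i 1)) : RM x ≤ L := by
  intro c hc
  have h1 := rm_kill x s hs c hc
  simp only [hx] at h1
  rw [sum_smul_mk] at h1
  rw [← Submodule.ker_mkQ L]
  exact h1

/-- derivations from the relation module -/
theorem der_of_rm {Q : Type} [Group Q] {ι : Type} [Fintype ι] (x : ι → Q)
    (hx : Subgroup.closure (Set.range x) = ⊤) (f : Q →* G) {M : Type} [AddCommGroup M]
    [Module (ZG G) M] (m : ι → M)
    (h : ∀ c ∈ RM x, ∑ i, MonoidAlgebra.mapDomainRingHom ℤ f (c i) • m i = 0) :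
    ∃ s : Q →* AF G M, (∀ q, (s q).g = f q) ∧ ∀ i, (s (x i)).m = m i := by
  classical
  set φ := MonoidAlgebra.mapDomainRingHom ℤ f with hφ
  have hφof : ∀ q, φ (MonoidAlgebra.of ℤ Q q) = MonoidAlgebra.of ℤ G (f q) := by
    intro q
    simp [hφ]
  let Lm : (ι → ZG Q) →+ M :=
    { toFun := fun c => ∑ i, φ (c i) • m i
      map_zero' := by simp
      map_add' := fun c d => by
        simp only [Pi.add_apply, map_add, add_smul, Finset.sum_add_distrib] }
  have hLs : ∀ (a : ZG Q) (c : ι → ZG Q), Lm (a • c) = φ a • Lm c := by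
    intro a c
    change ∑ i, φ ((a • c) i) • m i = φ a • ∑ i, φ (c i) • m i
    rw [Finset.smul_sum]
    refine Finset.sum_congr rfl fun i _ => ?_
    rw [Pi.smul_apply, smul_eq_mul, map_mul, mul_smul]
  have hex : ∀ q : Q, ∃ c : ι → ZG Q, fox x c = MonoidAlgebra.of ℤ Q q - 1 := by
    intro q
    have : augm Q (MonoidAlgebra.of ℤ Q q - 1) = 0 := by
      rw [map_sub, augm_of, augm_one, sub_self]
    exact (fox_exact x hx _).1 this
  choose cq hcq using hex
  have huniq : ∀ c d : ι → ZG Q, fox x c = fox x d → Lm c = Lm d := by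
    intro c d hcd
    have : c - d ∈ RM x := by
      change fox x (c - d) = 0
      rw [map_sub, hcd, sub_self]
    have h2 : Lm (c - d) = 0 := h _ this
    rw [map_sub] at h2
    exact sub_eq_zero.1 h2
  let s : Q →* AF G M :=
    { toFun := fun q => ⟨f q, Lm (cq q)⟩
      map_one' := by
        ext
        · exact map_one f
        · change Lm (cq 1) = 0
          rw [← map_zero Lm]
          apply huniq
          rw [hcq, map_one, sub_self, map_zero]
      map_mul' := by
        intro a b
        ext
        · exact map_mul f a b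
        · change Lm (cq (a * b)) = Lm (cq a) + MonoidAlgebra.of ℤ G (f a) • Lm (cq b)
          rw [← hφof, ← hLs, ← map_add]
          apply huniq
          rw [hcq, map_add, map_smul, hcq, hcq, map_mul, smul_eq_mul]
          noncomm_ring }
  refine ⟨s, fun q => rfl, fun i => ?_⟩
  change Lm (cq (x i)) = m i
  have : Lm (cq (x i)) = Lm (Pi.single i 1) := by
    apply huniq
    rw [hcq]
    change _ = ∑ j, (Pi.single i (1 : ZG Q) : ι → ZG Q) j * (MonoidAlgebra.of ℤ Q (x j) - 1)
    rw [Finset.sum_eq_single i]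
    · simp
    · intro j _ hj
      rw [Pi.single_eq_of_ne hj, zero_mul]
    · intro h; exact absurd (Finset.mem_univ _) h
  rw [this]
  change ∑ j, φ ((Pi.single i (1 : ZG Q) : ι → ZG Q) j) • m j = m i
  rw [Finset.sum_eq_single i]
  · simp
  · intro j _ hj
    rw [Pi.single_eq_of_ne hj, map_zero, zero_smul]
  · intro h; exact absurd (Finset.mem_univ _) h

end

end Pool.Agent.N271.HC
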