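import Pool.Agent.N271.HC.Der

set_option autoImplicit false
set_option linter.unusedSectionVars false

/-! # The HNN extension of `F × Q` along the graph of `F → Q` -/

namespace Pool.Agent.N271.HC

open CategoryTheory Pool.Agent.W326.DU Pool.Agent.Y66.HC Pool.Agent.Y448.HC

section
variable {ι : Type} [Fintype ι] [DecidableEq ι] {Q : Type} [Group Q] (q : ι → Q)

/-- the graph of `F → Q` -/
def Dl : Subgroup (FreeGroup ι × Q) :=
  ((MonoidHom.id (FreeGroup ι)).prod (FreeGroup.lift q)).range

/-- the HNN extension -/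
abbrev G1 : Type := HNNExtension (FreeGroup ι × Q) (Dl q) (Dl q) (MulEquiv.refl (Dl q))

/-- the base -/
def ofB : FreeGroup ι × Q →* G1 q := HNNExtension.of

/-- the stable letter -/
def tt : G1 q := HNNExtension.t

theorem tt_comm (w : FreeGroup ι) :
    tt q * ofB q (w, FreeGroup.lift q w) = ofB q (w, FreeGroup.lift q w) * tt q :=
  HNNExtension.t_mul_of (φ := MulEquiv.refl (Dl q)) ⟨(w, FreeGroup.lift q w), ⟨w, rfl⟩⟩

theorem exists_lift {K : Type} [Group K] (f : FreeGroup ι × Q →* K) (x : K)
    (hx : ∀ i, x * f (FreeGroup.of i, q i) = f (FreeGroup.of i, q i) * x) :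
    ∃ F : G1 q →* K, (∀ b, F (ofB q b) = f b) ∧ F (tt q) = x := by
  have h1 : ∀ w : FreeGroup ι, Commute x (f (w, FreeGroup.lift q w)) := by
    intro w
    induction w using FreeGroup.induction_on with
    | C1 =>
      rw [map_one]
      have : f ((1 : FreeGroup ι), (1 : Q)) = 1 := map_one f
      rw [this]; exact Commute.one_right _
    | of i => rw [FreeGroup.lift_apply_of]; exact hx i
    | inv_of i h =>
      have : f ((FreeGroup.of i)⁻¹, FreeGroup.lift q (FreeGroup.of i)⁻¹) =
          (f (FreeGroup.of i, FreeGroup.lift q (FreeGroup.of i)))⁻¹ := by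
        rw [← map_inv f, map_inv (FreeGroup.lift q)]; rfl
      rw [this]; exact h.inv_right
    | mul a b ha hb =>
      have : f (a * b, FreeGroup.lift q (a * b)) =
          f (a, FreeGroup.lift q a) * f (b, FreeGroup.lift q b) := by
        rw [← map_mul f, map_mul (FreeGroup.lift q)]; rfl
      rw [this]; exact ha.mul_right hb
  have h2 : ∀ a : Dl q, x * f (a : FreeGroup ι × Q) =
      f ((MulEquiv.refl (Dl q) a : Dl q) : FreeGroup ι × Q) * x := by
    rintro ⟨_, ⟨w, rfl⟩⟩
    exact h1 w
  exact ⟨HNNExtension.lift f x h2, fun b => HNNExtension.lift_of _ _ _ _,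
    HNNExtension.lift_t _ _ _⟩

theorem exists_prod (hq : Subgroup.closure (Set.range q) = ⊤) {K : Type} [Group K] (u : ι → K)
    (v : Q →* K) (hc : ∀ i j, u i * v (q j) = v (q j) * u i) :
    ∃ f : FreeGroup ι × Q →* K, (∀ i, f (FreeGroup.of i, 1) = u i) ∧ ∀ y, f (1, y) = v y := by
  have h1 : ∀ i y, Commute (u i) (v y) := by
    intro i y
    have hy : y ∈ Subgroup.closure (Set.range q) := by rw [hq]; trivial
    induction hy using Subgroup.closure_induction with
    | mem y hy => obtain ⟨j, rfl⟩ := hy; exact hc i j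
    | one => rw [map_one]; exact Commute.one_right _
    | mul a b _ _ ha hb => rw [map_mul]; exact ha.mul_right hb
    | inv a _ ha => rw [map_inv]; exact ha.inv_right
  have h2 : ∀ w y, Commute (FreeGroup.lift u w) (v y) := by
    intro w y
    induction w using FreeGroup.induction_on with
    | C1 => rw [map_one]; exact Commute.one_left _
    | of i => rw [FreeGroup.lift_apply_of]; exact h1 i y
    | inv_of i h => rw [map_inv]; exact h.inv_left
    | mul a b ha hb => rw [map_mul]; exact ha.mul_left hb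
  refine ⟨MonoidHom.noncommCoprod (FreeGroup.lift u) v h2, fun i => ?_, fun y => ?_⟩
  · simp
  · simp

theorem G1_ext {K : Type} [Group K] {f g : G1 q →* K}
    (h1 : ∀ i, f (ofB q (FreeGroup.of i, 1)) = g (ofB q (FreeGroup.of i, 1)))
    (h2 : ∀ y, f (ofB q (1, y)) = g (ofB q (1, y))) (h3 : f (tt q) = g (tt q)) : f = g := by
  apply HNNExtension.hom_ext
  · apply MonoidHom.ext
    rintro ⟨w, y⟩
    change f (ofB q (w, y)) = g (ofB q (w, y))
    have e1 : ((w, y) : FreeGroup ι × Q) = (w, 1) * (1, y) := by simp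
    rw [e1, map_mul, map_mul, map_mul, h2]
    congr 1
    induction w using FreeGroup.induction_on with
    | C1 =>
      have : ((1 : FreeGroup ι), (1 : Q)) = 1 := rfl
      rw [this, map_one, map_one, map_one]
    | of i => exact h1 i
    | inv_of i h =>
      have : (((FreeGroup.of i)⁻¹, 1) : FreeGroup ι × Q) = (FreeGroup.of i, 1)⁻¹ := by
        simp
      rw [this, map_inv, map_inv, map_inv, h1]
    | mul a b ha hb =>
      have : ((a * b, 1) : FreeGroup ι × Q) = (a, 1) * (b, 1) := by simp
      have ha' := ha (by simp)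
      have hb' := hb (by simp)
      rw [this, map_mul, map_mul, map_mul, ha', hb']
  · exact h3

/-- the universal property of the group -/
theorem exists_G1 (hq : Subgroup.closure (Set.range q) = ⊤) {K : Type} [Group K] (u : ι → K)
    (v : Q →* K) (x : K) (hc : ∀ i j, u i * v (q j) = v (q j) * u i)
    (hx : ∀ i, x * (u i * v (q i)) = u i * v (q i) * x) :
    ∃ F : G1 q →* K, (∀ i, F (ofB q (FreeGroup.of i, 1)) = u i) ∧ (∀ y, F (ofB q (1, y)) = v y) ∧
      F (tt q) = x := by
  obtain ⟨f, hf1, hf2⟩ := exists_prod q hq u v hc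
  obtain ⟨F, hF1, hF2⟩ := exists_lift q f x (by
    intro i
    have e1 : ((FreeGroup.of i, q i) : FreeGroup ι × Q) = (FreeGroup.of i, 1) * (1, q i) := by simp
    rw [e1, map_mul, hf1, hf2]
    exact hx i)
  exact ⟨F, fun i => by rw [hF1, hf1], fun y => by rw [hF1, hf2], hF2⟩

/-- sections -/
theorem exists_sec (hq : Subgroup.closure (Set.range q) = ⊤) {M : Type} [AddCommGroup M]
    [Module (ZG (G1 q)) M] (a : ι → M) (v : Q →* AF (G1 q) M) (τ : M)
    (hv : ∀ y, (v y).g = ofB q (1, y))
    (hc : ∀ i j, a i + MonoidAlgebra.of ℤ (G1 q) (ofB q (FreeGroup.of i, 1)) • (v (q j)).m =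
      (v (q j)).m + MonoidAlgebra.of ℤ (G1 q) (ofB q (1, q j)) • a i)
    (hx : ∀ i, τ + MonoidAlgebra.of ℤ (G1 q) (tt q) •
        (a i + MonoidAlgebra.of ℤ (G1 q) (ofB q (FreeGroup.of i, 1)) • (v (q i)).m) =
      (a i + MonoidAlgebra.of ℤ (G1 q) (ofB q (FreeGroup.of i, 1)) • (v (q i)).m) +
        MonoidAlgebra.of ℤ (G1 q) (ofB q (FreeGroup.of i, q i)) • τ) :
    ∃ s : G1 q →* AF (G1 q) M, (∀ g, (s g).g = g) ∧
      (∀ i, (s (ofB q (FreeGroup.of i, 1))).m = a i) ∧ (∀ y, s (ofB q (1, y)) = v y) ∧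
      (s (tt q)).m = τ := by
  have e1 : ∀ i y, ofB q (FreeGroup.of i, 1) * ofB q (1, y) = ofB q (FreeGroup.of i, y) := by
    intro i y
    rw [← map_mul]; simp
  have e2 : ∀ i y, ofB q (1, y) * ofB q (FreeGroup.of i, 1) = ofB q (FreeGroup.of i, y) := by
    intro i y
    rw [← map_mul]; simp
  obtain ⟨s, h1, h2, h3⟩ := exists_G1 q hq (K := AF (G1 q) M)
    (fun i => ⟨ofB q (FreeGroup.of i, 1), a i⟩) v ⟨tt q, τ⟩ (by
      intro i j
      ext
      · rw [AF.mul_g, AF.mul_g, hv]
        change ofB q (FreeGroup.of i, 1) * ofB q (1, q j) =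
          ofB q (1, q j) * ofB q (FreeGroup.of i, 1)
        rw [e1, e2]
      · rw [AF.mul_m, AF.mul_m, hv]
        exact hc i j) (by
      intro i
      have hcomm := tt_comm q (FreeGroup.of i)
      rw [FreeGroup.lift_apply_of] at hcomm
      ext
      · simp only [AF.mul_g, hv, e1]
        exact hcomm
      · simp only [AF.mul_m, AF.mul_g, hv, e1]
        exact hx i)
  refine ⟨s, ?_, fun i => by rw [h1], h2, by rw [h3]⟩
  have h4 : AF.fst.comp s = MonoidHom.id (G1 q) := by
    apply G1_ext
    · intro i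
      change (s _).g = _
      rw [h1]; rfl
    · intro y
      change (s _).g = _
      rw [h2, hv]; rfl
    · change (s _).g = _
      rw [h3]; rfl
  intro g
  exact DFunLike.congr_fun h4 g

/-- the generating family -/
def x1 : (ι ⊕ ι) ⊕ Unit → G1 q
  | Sum.inl (Sum.inl i) => ofB q (FreeGroup.of i, 1)
  | Sum.inl (Sum.inr i) => ofB q (1, q i)
  | Sum.inr _ => tt q

theorem closure_x1 (hq : Subgroup.closure (Set.range q) = ⊤) :
    Subgroup.closure (Set.range (x1 q)) = ⊤ := by
  rw [eq_top_iff]
  rintro g -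
  have hF : ∀ w : FreeGroup ι, ofB q (w, 1) ∈ Subgroup.closure (Set.range (x1 q)) := by
    intro w
    induction w using FreeGroup.induction_on with
    | C1 =>
      have : ((1 : FreeGroup ι), (1 : Q)) = 1 := rfl
      rw [this, map_one]; exact one_mem _
    | of i => exact Subgroup.subset_closure ⟨Sum.inl (Sum.inl i), rfl⟩
    | inv_of i h =>
      have : (((FreeGroup.of i)⁻¹, 1) : FreeGroup ι × Q) = (FreeGroup.of i, 1)⁻¹ := by
        simp
      rw [this, map_inv]; exact inv_mem h
    | mul a b ha hb =>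
      have : ((a * b, 1) : FreeGroup ι × Q) = (a, 1) * (b, 1) := by simp
      rw [this, map_mul]; exact mul_mem ha hb
  have hQ : ∀ y : Q, ofB q (1, y) ∈ Subgroup.closure (Set.range (x1 q)) := by
    intro y
    have hy : y ∈ Subgroup.closure (Set.range q) := by rw [hq]; trivial
    induction hy using Subgroup.closure_induction with
    | mem y hy =>
      obtain ⟨j, rfl⟩ := hy
      exact Subgroup.subset_closure ⟨Sum.inl (Sum.inr j), rfl⟩
    | one =>
      have : ((1 : FreeGroup ι), (1 : Q)) = 1 := rfl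
      rw [this, map_one]; exact one_mem _
    | mul a b _ _ ha hb =>
      have : ((1, a * b) : FreeGroup ι × Q) = (1, a) * (1, b) := by simp
      rw [this, map_mul]; exact mul_mem ha hb
    | inv a _ ha =>
      have : ((1, a⁻¹) : FreeGroup ι × Q) = (1, a)⁻¹ := by simp
      rw [this, map_inv]; exact inv_mem ha
  induction g using HNNExtension.induction_on with
  | of b =>
    obtain ⟨w, y⟩ := b
    have e1 : ((w, y) : FreeGroup ι × Q) = (w, 1) * (1, y) := by simp
    change ofB q (w, y) ∈ _
    rw [e1, map_mul]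
    exact mul_mem (hF w) (hQ y)
  | t => exact Subgroup.subset_closure ⟨Sum.inr (), rfl⟩
  | mul a b ha hb => exact mul_mem ha hb
  | inv a ha => exact inv_mem ha

end

end Pool.Agent.N271.HC
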