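import Pool.Agent.N271.HC.Cos

set_option autoImplicit false
set_option linter.unusedSectionVars false

/-! # The fibre product is not of type `FP₂` -/

namespace Pool.Agent.N271.HC

open CategoryTheory Pool.Agent.W326.DU Pool.Agent.Y66.HC Pool.Agent.Y448.HC

section
variable {ι : Type} [Fintype ι] [DecidableEq ι] {Q : Type} [Group Q] (q : ι → Q)

/-- the fibre product -/
abbrev PP : Subgroup (G1 q × FreeGroup ι) :=
  ((pi1 q).comp (MonoidHom.fst (G1 q) (FreeGroup ι))).eqLocus
    ((FreeGroup.lift q).comp (MonoidHom.snd (G1 q) (FreeGroup ι)))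

theorem mem_PP (p : G1 q × FreeGroup ι) : p ∈ PP q ↔ pi1 q p.1 = FreeGroup.lift q p.2 := Iff.rfl

/-- the generating family of the fibre product -/
def xP : (ι ⊕ ι) ⊕ Unit → PP q
  | Sum.inl (Sum.inl i) => ⟨(ofB q (FreeGroup.of i, 1), 1), by rw [mem_PP]; simp [pi1_of]⟩
  | Sum.inl (Sum.inr i) => ⟨(ofB q (1, q i), FreeGroup.of i), by rw [mem_PP]; simp [pi1_of]⟩
  | Sum.inr _ => ⟨(tt q, 1), by rw [mem_PP]; simp [pi1_tt]⟩

/-- the first projection -/
def pr1 : PP q →* G1 q := (MonoidHom.fst (G1 q) (FreeGroup ι)).comp (PP q).subtype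

/-- the second projection -/
def pr2 : PP q →* FreeGroup ι := (MonoidHom.snd (G1 q) (FreeGroup ι)).comp (PP q).subtype

theorem pr1_xP (j : (ι ⊕ ι) ⊕ Unit) : pr1 q (xP q j) = x1 q j := by
  rcases j with (i | i) | u <;> rfl

theorem PP_ext {p p' : PP q} (h1 : pr1 q p = pr1 q p') (h2 : pr2 q p = pr2 q p') : p = p' :=
  Subtype.ext (Prod.ext h1 h2)

/-- elements of the centraliser -/
def eP (w w' : FreeGroup ι) (h : FreeGroup.lift q w = FreeGroup.lift q w') : PP q :=
  ⟨(ofB q (w, FreeGroup.lift q w), w'), by rw [mem_PP]; simp [pi1_of, h]⟩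

/-- the elements of `F` in the first factor -/
def fP (w : FreeGroup ι) : PP q := ⟨(ofB q (w, 1), 1), by rw [mem_PP]; simp [pi1_of]⟩

/-- the diagonal elements -/
def dP (w : FreeGroup ι) : PP q := ⟨(ofB q (1, FreeGroup.lift q w), w), by rw [mem_PP]; simp [pi1_of]⟩

theorem fP_mem (H : Subgroup (PP q)) (h : ∀ i, xP q (Sum.inl (Sum.inl i)) ∈ H) (w : FreeGroup ι) :
    fP q w ∈ H := by
  induction w using FreeGroup.induction_on with
  | C1 =>
    have : fP q 1 = 1 := PP_ext q (by
      change ofB q ((1 : FreeGroup ι), (1 : Q)) = 1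
      have : ((1 : FreeGroup ι), (1 : Q)) = 1 := rfl
      rw [this, map_one]) rfl
    rw [this]; exact one_mem _
  | of i => exact h i
  | inv_of i hi =>
    have : fP q (FreeGroup.of i)⁻¹ = (fP q (FreeGroup.of i))⁻¹ := PP_ext q (by
      change ofB q ((FreeGroup.of i)⁻¹, (1 : Q)) = (ofB q (FreeGroup.of i, 1))⁻¹
      rw [← map_inv]; simp) (by
      change (1 : FreeGroup ι) = 1⁻¹
      simp)
    rw [this]; exact inv_mem hi
  | mul a b ha hb =>
    have : fP q (a * b) = fP q a * fP q b := PP_ext q (by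
      change ofB q (a * b, (1 : Q)) = ofB q (a, 1) * ofB q (b, 1)
      rw [← map_mul]; simp) (by
      change (1 : FreeGroup ι) = 1 * 1
      simp)
    rw [this]; exact mul_mem ha hb

theorem dP_mem (H : Subgroup (PP q)) (h : ∀ i, xP q (Sum.inl (Sum.inr i)) ∈ H) (w : FreeGroup ι) :
    dP q w ∈ H := by
  have hd : ∀ i, dP q (FreeGroup.of i) = xP q (Sum.inl (Sum.inr i)) := by
    intro i
    refine PP_ext q ?_ rfl
    change ofB q (1, FreeGroup.lift q (FreeGroup.of i)) = ofB q (1, q i)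
    rw [FreeGroup.lift_apply_of]
  induction w using FreeGroup.induction_on with
  | C1 =>
    have : dP q 1 = 1 := PP_ext q (by
      change ofB q ((1 : FreeGroup ι), FreeGroup.lift q 1) = 1
      rw [map_one]
      have : ((1 : FreeGroup ι), (1 : Q)) = 1 := rfl
      rw [this, map_one]) rfl
    rw [this]; exact one_mem _
  | of i => rw [hd]; exact h i
  | inv_of i hi =>
    have : dP q (FreeGroup.of i)⁻¹ = (dP q (FreeGroup.of i))⁻¹ := PP_ext q (by
      change ofB q (1, FreeGroup.lift q (FreeGroup.of i)⁻¹) =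
        (ofB q (1, FreeGroup.lift q (FreeGroup.of i)))⁻¹
      rw [← map_inv]; simp) rfl
    rw [this]; exact inv_mem hi
  | mul a b ha hb =>
    have : dP q (a * b) = dP q a * dP q b := PP_ext q (by
      change ofB q (1, FreeGroup.lift q (a * b)) =
        ofB q (1, FreeGroup.lift q a) * ofB q (1, FreeGroup.lift q b)
      rw [← map_mul]; simp) rfl
    rw [this]; exact mul_mem ha hb

theorem eP_mem (H : Subgroup (PP q)) (h : ∀ j, xP q (Sum.inl j) ∈ H) (w w' : FreeGroup ι)
    (hw : FreeGroup.lift q w = FreeGroup.lift q w') : eP q w w' hw ∈ H := by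
  have : eP q w w' hw = fP q w * dP q w' := PP_ext q (by
      change ofB q (w, FreeGroup.lift q w) = ofB q (w, 1) * ofB q (1, FreeGroup.lift q w')
      rw [← map_mul, hw]; simp) (by
      change w' = 1 * w'
      simp)
  rw [this]
  exact mul_mem (fP_mem q H (fun i => h _) w) (dP_mem q H (fun i => h _) w')

theorem closure_xP (hq : Function.Surjective (FreeGroup.lift q)) :
    Subgroup.closure (Set.range (xP q)) = ⊤ := by
  set H := Subgroup.closure (Set.range (xP q)) with hH
  have hx : ∀ j, xP q j ∈ H := fun j => Subgroup.subset_closure ⟨j, rfl⟩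
  rw [eq_top_iff]
  rintro p -
  -- the kernel part
  have hk : ∀ k ∈ K0 q, ∃ p ∈ H, pr1 q p = k ∧ pr2 q p = 1 := by
    intro k hk
    unfold K0 at hk
    induction hk using Subgroup.closure_induction with
    | mem k hk =>
      rcases hk with ⟨i, rfl⟩ | hk
      · exact ⟨xP q (Sum.inl (Sum.inl i)), hx _, rfl, rfl⟩
      · rw [Set.mem_singleton_iff] at hk
        subst hk
        exact ⟨xP q (Sum.inr ()), hx _, rfl, rfl⟩
    | one => exact ⟨1, one_mem _, map_one _, map_one _⟩
    | mul a b _ _ ha hb =>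
      obtain ⟨p, hp, h1, h2⟩ := ha
      obtain ⟨p', hp', h1', h2'⟩ := hb
      exact ⟨p * p', mul_mem hp hp', by rw [map_mul, h1, h1'], by rw [map_mul, h2, h2', mul_one]⟩
    | inv a _ ha =>
      obtain ⟨p, hp, h1, h2⟩ := ha
      exact ⟨p⁻¹, inv_mem hp, by rw [map_inv, h1], by rw [map_inv, h2, inv_one]⟩
  have hp : pi1 q (pr1 q p) = FreeGroup.lift q (pr2 q p) := p.2
  have h1 : pr1 q p * (ofB q (1, FreeGroup.lift q (pr2 q p)))⁻¹ ∈ K0 q := by
    rw [← ker_pi1 q hq, MonoidHom.mem_ker, map_mul, map_inv, pi1_of, hp]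
    simp
  obtain ⟨p', hp', e1, e2⟩ := hk _ h1
  have : p = p' * dP q (pr2 q p) := PP_ext q (by
      rw [map_mul, e1]
      change _ = _ * ofB q (1, FreeGroup.lift q (pr2 q p))
      rw [inv_mul_cancel_right]) (by
      rw [map_mul, e2]
      change _ = 1 * pr2 q p
      rw [one_mul])
  rw [this]
  exact mul_mem hp' (dP_mem q H (fun i => hx _) _)

/-- the image of the graph -/
def DD : Subgroup (G1 q) := (Dl q).map (ofB q)

/-- **Lemma T**: the coefficients of the stable letter -/
theorem t_coef (hcl : Subgroup.closure (Set.range q) = ⊤) (c : (ι ⊕ ι) ⊕ Unit → ZG (G1 q))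
    (hc : c ∈ RM (x1 q)) : c (Sum.inr ()) ∈ IL ℤ ((DD q : Subgroup (G1 q)) : Set (G1 q)) := by
  set L := IL ℤ ((DD q : Subgroup (G1 q)) : Set (G1 q)) with hL
  obtain ⟨s, hs, h1, h2, h3⟩ := exists_sec q hcl (M := ZG (G1 q) ⧸ L) (fun _ => 0)
    { toFun := fun y => ⟨ofB q (1, y), 0⟩
      map_one' := by
        ext
        · change ofB q (1, 1) = 1
          have : ((1 : FreeGroup ι), (1 : Q)) = 1 := rfl
          rw [this, map_one]
        · rfl
      map_mul' := by
        intro a b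
        ext
        · change ofB q (1, a * b) = ofB q (1, a) * ofB q (1, b)
          rw [← map_mul]; simp
        · change (0 : ZG (G1 q) ⧸ L) = 0 + MonoidAlgebra.of ℤ (G1 q) _ • 0
          rw [smul_zero, add_zero] } (L.mkQ 1) (fun y => rfl)
    (by
      intro i j
      change (0 : ZG (G1 q) ⧸ L) + _ • 0 = 0 + _ • 0
      rw [smul_zero, smul_zero])
    (by
      intro i
      change L.mkQ 1 + _ • ((0 : ZG (G1 q) ⧸ L) + _ • 0) = (0 + _ • 0) + _
      rw [smul_zero, add_zero, smul_zero, add_zero, zero_add, ← map_smul]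
      change Submodule.Quotient.mk _ = Submodule.Quotient.mk _
      rw [Submodule.Quotient.eq, ← neg_mem_iff, neg_sub, smul_eq_mul, mul_one]
      refine Submodule.subset_span ⟨ofB q (FreeGroup.of i, q i), ?_, rfl⟩
      refine ⟨(FreeGroup.of i, q i), ⟨FreeGroup.of i, ?_⟩, rfl⟩
      change (FreeGroup.of i, FreeGroup.lift q (FreeGroup.of i)) = _
      rw [FreeGroup.lift_apply_of])
  have h := rm_kill (x1 q) s hs c hc
  rw [Fintype.sum_sum_type, Fintype.sum_sum_type] at h
  have e1 : ∀ i, (s (x1 q (Sum.inl (Sum.inl i)))).m = 0 := h1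
  have e2 : ∀ i, (s (x1 q (Sum.inl (Sum.inr i)))).m = 0 := by
    intro i
    change (s (ofB q (1, q i))).m = 0
    rw [h2]; rfl
  have e3 : (s (x1 q (Sum.inr ()))).m = L.mkQ 1 := h3
  simp only [e1, e2, smul_zero, Finset.sum_const_zero, zero_add, Finset.univ_unique,
    Finset.sum_singleton, PUnit.default_eq_unit, e3] at h
  rw [← map_smul, smul_eq_mul, mul_one] at h
  exact (Submodule.Quotient.mk_eq_zero _).1 h

/-- the centraliser of `t` -/
def CC : Subgroup (PP q) := (DD q).comap (pr1 q)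

theorem mem_CC (p : PP q) : p ∈ CC q ↔ ∃ w w' h, p = eP q w w' h := by
  constructor
  · rintro ⟨_, ⟨w, rfl⟩, hw⟩
    have hp : pi1 q (pr1 q p) = FreeGroup.lift q (pr2 q p) := p.2
    have hw' : pr1 q p = ofB q (w, FreeGroup.lift q w) := hw.symm
    have h : FreeGroup.lift q w = FreeGroup.lift q (pr2 q p) := by
      rw [← hp, hw', pi1_of]
    exact ⟨w, pr2 q p, h, PP_ext q hw' rfl⟩
  · rintro ⟨w, w', h, rfl⟩
    exact ⟨(w, FreeGroup.lift q w), ⟨w, rfl⟩, rfl⟩

theorem fox_push (c : (ι ⊕ ι) ⊕ Unit → ZG (PP q)) (hc : c ∈ RM (xP q)) :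
    (fun j => MonoidAlgebra.mapDomainRingHom ℤ (pr1 q) (c j)) ∈ RM (x1 q) := by
  have h : fox (xP q) c = 0 := hc
  have h1 : ∑ j, c j * (MonoidAlgebra.of ℤ (PP q) (xP q j) - 1) = 0 := h
  have h2 := congrArg (MonoidAlgebra.mapDomainRingHom ℤ (pr1 q)) h1
  change ∑ j, MonoidAlgebra.mapDomainRingHom ℤ (pr1 q) (c j) *
    (MonoidAlgebra.of ℤ (G1 q) (x1 q j) - 1) = 0
  rw [map_sum, map_zero] at h2
  rw [← h2]
  refine Finset.sum_congr rfl fun j _ => ?_
  rw [map_mul, map_sub, map_one, ← pr1_xP]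
  congr 2
  simp

theorem cosP_comap {Γ Γ' : Type} [Group Γ] [Group Γ'] (f : Γ →* Γ') (C : Subgroup Γ') (y : ZG Γ)
    (h : cosP C (MonoidAlgebra.mapDomainRingHom ℤ f y) = 0) : cosP (C.comap f) y = 0 := by
  let g : (Γ ⧸ C.comap f) → Γ' ⧸ C := Quotient.map' f (by
    intro a b hab
    rw [QuotientGroup.leftRel_apply] at hab ⊢
    rw [← map_inv, ← map_mul]
    exact hab)
  have hg : ∀ a : Γ, g (QuotientGroup.mk a) = QuotientGroup.mk (f a) := fun a => rfl
  have hgi : Function.Injective g := by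
    intro a b
    obtain ⟨a, rfl⟩ := QuotientGroup.mk_surjective a
    obtain ⟨b, rfl⟩ := QuotientGroup.mk_surjective b
    rw [hg, hg, QuotientGroup.eq, QuotientGroup.eq, ← map_inv, ← map_mul]
    exact fun h => h
  apply Finsupp.mapDomain_injective hgi
  rw [Finsupp.mapDomain_zero, ← h]
  have key : (Finsupp.mapDomain.addMonoidHom g : ((Γ ⧸ C.comap f) →₀ ℤ) →+ _).comp (cosP (C.comap f)) =
      (cosP C).comp (MonoidAlgebra.mapDomainRingHom ℤ f).toAddMonoidHom := by
    apply MonoidAlgebra.addMonoidHom_ext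
    intro a n
    change Finsupp.mapDomain g (cosP (C.comap f) (MonoidAlgebra.single a n)) =
      cosP C (MonoidAlgebra.mapDomainRingHom ℤ f (MonoidAlgebra.single a n))
    rw [cosP_single, Finsupp.mapDomain_single, hg]
    simp [cosP_single]
  exact DFunLike.congr_fun key y

theorem CC_fg (hq : Function.Surjective (FreeGroup.lift q)) (h : FPc 2 (PP q)) : (CC q).FG := by
  have hcl : Subgroup.closure (Set.range q) = ⊤ := by
    rw [← FreeGroup.range_lift_eq_closure]
    exact MonoidHom.range_eq_top.2 hq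
  have hfg : (RM (xP q)).FG := m1 (xP q) (closure_xP q hq) h
  refine fg_of_coef (xP q) (Sum.inr ()) hfg (CC q) ?_ ?_
  · intro r hr
    apply IL_of_cosP
    apply cosP_comap
    exact cosP_IL _ _ (t_coef q hcl _ (fox_push q r hr))
  · intro c hc
    have hE : ∃ b : (ι ⊕ ι) ⊕ Unit → ZG (PP q), b (Sum.inr ()) = 0 ∧
        fox (xP q) b = MonoidAlgebra.of ℤ (PP q) c - 1 := by
      let H : Subgroup (PP q) :=
        { carrier := {g | ∃ b : (ι ⊕ ι) ⊕ Unit → ZG (PP q), b (Sum.inr ()) = 0 ∧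
            fox (xP q) b = MonoidAlgebra.of ℤ (PP q) g - 1}
          one_mem' := ⟨0, rfl, by rw [map_zero, map_one, sub_self]⟩
          mul_mem' := by
            rintro g g' ⟨b, hb, hb2⟩ ⟨b', hb', hb2'⟩
            refine ⟨b + MonoidAlgebra.of ℤ (PP q) g • b', ?_, ?_⟩
            · rw [Pi.add_apply, Pi.smul_apply, hb, hb', smul_zero, add_zero]
            · rw [map_add, map_smul, hb2, hb2', map_mul, smul_eq_mul]
              noncomm_ring
          inv_mem' := by
            rintro g ⟨b, hb, hb2⟩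
            refine ⟨-(MonoidAlgebra.of ℤ (PP q) g⁻¹ • b), ?_, ?_⟩
            · rw [Pi.neg_apply, Pi.smul_apply, hb, smul_zero, neg_zero]
            · rw [map_neg, map_smul, hb2, smul_eq_mul, mul_sub, ← map_mul, inv_mul_cancel, map_one,
                mul_one, neg_sub] }
      have hH : c ∈ H := by
        obtain ⟨w, w', hw, rfl⟩ := (mem_CC q c).1 hc
        apply eP_mem
        intro j
        refine ⟨Pi.single (Sum.inl j) 1, ?_, ?_⟩
        · rw [Pi.single_eq_of_ne (by simp)]
        · change ∑ k, (Pi.single (Sum.inl j) (1 : ZG (PP q)) : _ → ZG (PP q)) k *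
            (MonoidAlgebra.of ℤ (PP q) (xP q k) - 1) = _
          rw [Finset.sum_eq_single (Sum.inl j)]
          · simp
          · intro k _ hk
            rw [Pi.single_eq_of_ne hk, zero_mul]
          · intro h; exact absurd (Finset.mem_univ _) h
      exact hH
    obtain ⟨b, hb, hb2⟩ := hE
    have hcomm : c * xP q (Sum.inr ()) = xP q (Sum.inr ()) * c := by
      obtain ⟨w, w', hw, rfl⟩ := (mem_CC q c).1 hc
      refine PP_ext q ?_ ?_
      · change ofB q (w, FreeGroup.lift q w) * tt q = tt q * ofB q (w, FreeGroup.lift q w)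
        rw [tt_comm]
      · change w' * 1 = 1 * w'
        simp
    refine ⟨(1 - MonoidAlgebra.of ℤ (PP q) c) • Pi.single (Sum.inr ()) 1 +
      (MonoidAlgebra.of ℤ (PP q) (xP q (Sum.inr ())) - 1) • b, ?_, ?_⟩
    · change fox (xP q) _ = 0
      have hs : fox (xP q) (Pi.single (Sum.inr ()) 1) =
          MonoidAlgebra.of ℤ (PP q) (xP q (Sum.inr ())) - 1 := by
        change ∑ k, (Pi.single (Sum.inr ()) (1 : ZG (PP q)) : _ → ZG (PP q)) k *
            (MonoidAlgebra.of ℤ (PP q) (xP q k) - 1) = _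
        rw [Finset.sum_eq_single (Sum.inr ())]
        · simp
        · intro k _ hk
          rw [Pi.single_eq_of_ne hk, zero_mul]
        · intro h; exact absurd (Finset.mem_univ _) h
      rw [map_add, map_smul, map_smul, hs, hb2, smul_eq_mul, smul_eq_mul]
      have h5 : MonoidAlgebra.of ℤ (PP q) c * MonoidAlgebra.of ℤ (PP q) (xP q (Sum.inr ())) =
          MonoidAlgebra.of ℤ (PP q) (xP q (Sum.inr ())) * MonoidAlgebra.of ℤ (PP q) c := by
        rw [← map_mul, ← map_mul, hcomm]
      have h6 : (1 - MonoidAlgebra.of ℤ (PP q) c) * (MonoidAlgebra.of ℤ (PP q) (xP q (Sum.inr ())) - 1) +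
        (MonoidAlgebra.of ℤ (PP q) (xP q (Sum.inr ())) - 1) * (MonoidAlgebra.of ℤ (PP q) c - 1) =
        MonoidAlgebra.of ℤ (PP q) (xP q (Sum.inr ())) * MonoidAlgebra.of ℤ (PP q) c -
          MonoidAlgebra.of ℤ (PP q) c * MonoidAlgebra.of ℤ (PP q) (xP q (Sum.inr ())) := by
        noncomm_ring
      rw [h6, h5, sub_self]
    · rw [Pi.add_apply, Pi.smul_apply, Pi.smul_apply, hb, smul_zero, add_zero, Pi.single_eq_same,
        smul_eq_mul, mul_one]

/-- **main theorem of this file** -/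
theorem rel_of_FP (hq : Function.Surjective (FreeGroup.lift q)) (h : FPc 2 (PP q)) :
    ∃ T : Finset (FreeGroup ι), Subgroup.normalClosure (T : Set (FreeGroup ι)) =
      (FreeGroup.lift q).ker := by
  classical
  obtain ⟨S, hS⟩ := CC_fg q hq h
  let f : PP q → FreeGroup ι := fun p => rho1 q (pr1 q p) * (pr2 q p)⁻¹
  refine ⟨S.image f, le_antisymm ?_ ?_⟩
  · apply Subgroup.normalClosure_le_normal
    intro x hx
    obtain ⟨p, hp, rfl⟩ := Finset.mem_image.1 (Finset.mem_coe.1 hx)
    have hpC : p ∈ CC q := by rw [← hS]; exact Subgroup.subset_closure hp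
    obtain ⟨w, w', hw, rfl⟩ := (mem_CC q p).1 hpC
    change FreeGroup.lift q (rho1 q (ofB q (w, FreeGroup.lift q w)) * w'⁻¹) = 1
    rw [rho1_of, map_mul, map_inv, ← hw]
    simp
  · intro r hr
    have hr1 : FreeGroup.lift q 1 = FreeGroup.lift q r := by
      rw [map_one]; exact hr.symm
    set N := Subgroup.normalClosure ((S.image f : Finset (FreeGroup ι)) : Set (FreeGroup ι)) with hN
    let f1 : PP q →* FreeGroup ι ⧸ N := (QuotientGroup.mk' N).comp ((rho1 q).comp (pr1 q))
    let f2 : PP q →* FreeGroup ι ⧸ N := (QuotientGroup.mk' N).comp (pr2 q)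
    have hle : CC q ≤ f1.eqLocus f2 := by
      rw [← hS, Subgroup.closure_le]
      intro p hp
      change ((rho1 q (pr1 q p) : FreeGroup ι) : FreeGroup ι ⧸ N) = ((pr2 q p : FreeGroup ι) : FreeGroup ι ⧸ N)
      rw [← mul_inv_eq_one, ← QuotientGroup.mk_inv, ← QuotientGroup.mk_mul, QuotientGroup.eq_one_iff]
      exact Subgroup.subset_normalClosure (Finset.mem_coe.2 (Finset.mem_image.2 ⟨p, hp, rfl⟩))
    have hmem : eP q 1 r hr1 ∈ CC q := (mem_CC q _).2 ⟨1, r, hr1, rfl⟩
    have h3 := hle hmem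
    change ((rho1 q (ofB q (1, FreeGroup.lift q 1)) : FreeGroup ι) : FreeGroup ι ⧸ N) =
      ((r : FreeGroup ι) : FreeGroup ι ⧸ N) at h3
    rw [rho1_of] at h3
    change ((1 : FreeGroup ι) : FreeGroup ι ⧸ N) = _ at h3
    rw [QuotientGroup.mk_one] at h3
    exact (QuotientGroup.eq_one_iff _).1 h3.symm

end

end Pool.Agent.N271.HC
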