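import Pool.Agent.N271.HC.Sur
import Pool.Agent.N271.HC.Pc

set_option autoImplicit false

/-! # Assembly -/

namespace Pool.Agent.N271.HC

open CategoryTheory Pool.Agent.W326.DU Pool.Agent.Y66.HC

theorem FPc_mono {G : Type} [Group G] {m n : ℕ} (h : m ≤ n) (hG : FPc n G) : FPc m G := by
  obtain ⟨R, hR⟩ := hG
  exact ⟨R, fun k hk => hR k (hk.trans h)⟩

/-- the homological 1-2-3 conjecture fails -/
theorem final (h8 : PropM8) (h3 : PropHFP3) : ∃ (G₁ G₂ Q : Type) (_ : Group G₁) (_ : Group G₂)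
    (_ : Group Q) (π₁ : G₁ →* Q) (π₂ : G₂ →* Q), Function.Surjective π₁ ∧
    Function.Surjective π₂ ∧ Group.FG π₁.ker ∧ FPc 2 G₁ ∧ FPc 2 G₂ ∧ FPc 3 Q ∧
    ¬ FPc 2 ((π₁.comp (MonoidHom.fst G₁ G₂)).eqLocus (π₂.comp (MonoidHom.snd G₁ G₂))) := by
  obtain ⟨V, iV, iD, ad, γ, l, p, hG⟩ := h8
  obtain ⟨q, hq, hnf⟩ := hnfp V _ ad γ l p hG
  haveI : Nonempty V := ⟨p 0⟩
  have hQ : FPc 3 (BB ad) := h3 V ad hG.symm hG.irr hG.k4 hG.acyc
  have hcl : Subgroup.closure (Set.range q) = ⊤ := by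
    rw [← FreeGroup.range_lift_eq_closure]
    exact MonoidHom.range_eq_top.2 hq
  have hR : (RM q).FG := m1 q hcl (FPc_mono (by norm_num) hQ)
  have h1 : FPc 2 (G1 q) := fp_G1 q hcl hR
  have h2 : FPc 2 (FreeGroup (V × V)) := fp_free
  refine ⟨G1 q, FreeGroup (V × V), BB ad, inferInstance, inferInstance, inferInstance, pi1 q,
    FreeGroup.lift q, pi1_surj q, hq, fg_ker q hq, h1, h2, hQ, fun h => hnf (rel_of_FP q hq h)⟩

end Pool.Agent.N271.HC
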