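import Pool.Agent.N271.HC.Ext

set_option autoImplicit false
set_option linter.unusedSectionVars false

/-! # The HNN extension is of type `FP₂`, and free groups are -/

namespace Pool.Agent.N271.HC

open CategoryTheory Pool.Agent.W326.DU Pool.Agent.Y66.HC Pool.Agent.Y448.HC

section
variable {ι : Type} [Fintype ι] [DecidableEq ι]

theorem fp_free : FPc 2 (FreeGroup ι) := by
  have hcl : Subgroup.closure (Set.range (FreeGroup.of : ι → FreeGroup ι)) = ⊤ :=
    FreeGroup.closure_range_of ι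
  refine m2 FreeGroup.of hcl ?_
  let L : Submodule (ZG (FreeGroup ι)) (ι → ZG (FreeGroup ι)) := ⊥
  let s : FreeGroup ι →* AF (FreeGroup ι) ((ι → ZG (FreeGroup ι)) ⧸ L) :=
    FreeGroup.lift (fun i => ⟨FreeGroup.of i, L.mkQ (Pi.single i 1)⟩)
  have hs : ∀ g, (s g).g = g := by
    have h4 : AF.fst.comp s = MonoidHom.id (FreeGroup ι) := by
      ext i
      simp [s, AF.fst]
    intro g
    exact DFunLike.congr_fun h4 g
  have h := rm_le (FreeGroup.of) L s hs (fun i => by simp [s])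
  have : RM (FreeGroup.of : ι → FreeGroup ι) = ⊥ := le_bot_iff.1 h
  rw [this]
  exact Submodule.fg_bot

variable {Q : Type} [Group Q] (q : ι → Q)

/-- relation for `[a_i, q_j]` -/
noncomputable def r1 (i j : ι) : (ι ⊕ ι) ⊕ Unit → ZG (G1 q) :=
  (1 - MonoidAlgebra.of ℤ (G1 q) (ofB q (1, q j))) • Pi.single (Sum.inl (Sum.inl i)) 1 +
    (MonoidAlgebra.of ℤ (G1 q) (ofB q (FreeGroup.of i, 1)) - 1) •
      Pi.single (Sum.inl (Sum.inr j)) 1

/-- relation for `[t, a_i q_i]` -/
noncomputable def r3 (i : ι) : (ι ⊕ ι) ⊕ Unit → ZG (G1 q) :=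
  (1 - MonoidAlgebra.of ℤ (G1 q) (ofB q (FreeGroup.of i, q i))) • Pi.single (Sum.inr ()) 1 +
    (MonoidAlgebra.of ℤ (G1 q) (tt q) - 1) • (Pi.single (Sum.inl (Sum.inl i)) 1 +
      MonoidAlgebra.of ℤ (G1 q) (ofB q (FreeGroup.of i, 1)) • Pi.single (Sum.inl (Sum.inr i)) 1)

/-- the inclusion of `Q` -/
def inQ : Q →* G1 q := (ofB q).comp (MonoidHom.inr (FreeGroup ι) Q)

/-- the ring homomorphism -/
noncomputable def phi : ZG Q →+* ZG (G1 q) := MonoidAlgebra.mapDomainRingHom ℤ (inQ q)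

theorem phi_of (y : Q) : phi q (MonoidAlgebra.of ℤ Q y) = MonoidAlgebra.of ℤ (G1 q) (ofB q (1, y)) := by
  simp [phi, inQ]

/-- the embedding of the relation module of `Q` -/
noncomputable def emb (c : ι → ZG Q) : (ι ⊕ ι) ⊕ Unit → ZG (G1 q) :=
  Sum.elim (Sum.elim (fun _ => 0) (fun j => phi q (c j))) (fun _ => 0)

theorem fox_x1 (c : (ι ⊕ ι) ⊕ Unit → ZG (G1 q)) : fox (x1 q) c =
    ∑ i, c (Sum.inl (Sum.inl i)) * (MonoidAlgebra.of ℤ (G1 q) (ofB q (FreeGroup.of i, 1)) - 1) +
    ∑ i, c (Sum.inl (Sum.inr i)) * (MonoidAlgebra.of ℤ (G1 q) (ofB q (1, q i)) - 1) +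
    c (Sum.inr ()) * (MonoidAlgebra.of ℤ (G1 q) (tt q) - 1) := by
  change ∑ j, c j * (MonoidAlgebra.of ℤ (G1 q) (x1 q j) - 1) = _
  rw [Fintype.sum_sum_type, Fintype.sum_sum_type]
  simp [x1]

theorem fox_single (j : (ι ⊕ ι) ⊕ Unit) :
    fox (x1 q) (Pi.single j 1) = MonoidAlgebra.of ℤ (G1 q) (x1 q j) - 1 := by
  change ∑ k, (Pi.single j (1 : ZG (G1 q)) : _ → ZG (G1 q)) k * (MonoidAlgebra.of ℤ (G1 q) (x1 q k) - 1) = _
  rw [Finset.sum_eq_single j]
  · simp
  · intro k _ hk
    rw [Pi.single_eq_of_ne hk, zero_mul]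
  · intro h; exact absurd (Finset.mem_univ _) h

theorem e12 (i : ι) (y : Q) : ofB q (FreeGroup.of i, 1) * ofB q (1, y) = ofB q (FreeGroup.of i, y) := by
  rw [← map_mul]; simp

theorem e21 (i : ι) (y : Q) : ofB q (1, y) * ofB q (FreeGroup.of i, 1) = ofB q (FreeGroup.of i, y) := by
  rw [← map_mul]; simp

theorem r1_mem (i j : ι) : r1 q i j ∈ RM (x1 q) := by
  change fox (x1 q) (r1 q i j) = 0
  unfold r1
  rw [map_add, map_smul, map_smul, fox_single, fox_single]
  simp only [x1, smul_eq_mul]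
  have h1 : MonoidAlgebra.of ℤ (G1 q) (ofB q (FreeGroup.of i, 1)) *
      MonoidAlgebra.of ℤ (G1 q) (ofB q (1, q j)) =
      MonoidAlgebra.of ℤ (G1 q) (ofB q (1, q j)) *
      MonoidAlgebra.of ℤ (G1 q) (ofB q (FreeGroup.of i, 1)) := by
    rw [← map_mul (MonoidAlgebra.of ℤ (G1 q)), ← map_mul (MonoidAlgebra.of ℤ (G1 q)), e12, e21]
  generalize MonoidAlgebra.of ℤ (G1 q) (ofB q (FreeGroup.of i, 1)) = A at *
  generalize MonoidAlgebra.of ℤ (G1 q) (ofB q (1, q j)) = B at *
  have h2 : (1 - B) * (A - 1) + (A - 1) * (B - 1) = A * B - B * A := by noncomm_ring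
  rw [h2, h1, sub_self]

theorem r3_mem (i : ι) : r3 q i ∈ RM (x1 q) := by
  change fox (x1 q) (r3 q i) = 0
  unfold r3
  have hcomm := tt_comm q (FreeGroup.of i)
  rw [FreeGroup.lift_apply_of] at hcomm
  rw [map_add, map_smul, map_smul, map_add, map_smul, fox_single, fox_single, fox_single]
  simp only [x1, smul_eq_mul]
  have h0 : MonoidAlgebra.of ℤ (G1 q) (ofB q (FreeGroup.of i, q i)) =
      MonoidAlgebra.of ℤ (G1 q) (ofB q (FreeGroup.of i, 1)) *
      MonoidAlgebra.of ℤ (G1 q) (ofB q (1, q i)) := by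
    rw [← map_mul, e12]
  have h1 : MonoidAlgebra.of ℤ (G1 q) (tt q) *
      MonoidAlgebra.of ℤ (G1 q) (ofB q (FreeGroup.of i, q i)) =
      MonoidAlgebra.of ℤ (G1 q) (ofB q (FreeGroup.of i, q i)) *
      MonoidAlgebra.of ℤ (G1 q) (tt q) := by
    rw [← map_mul, ← map_mul, hcomm]
  rw [h0] at h1 ⊢
  generalize MonoidAlgebra.of ℤ (G1 q) (ofB q (FreeGroup.of i, 1)) = A at *
  generalize MonoidAlgebra.of ℤ (G1 q) (ofB q (1, q i)) = B at *
  generalize MonoidAlgebra.of ℤ (G1 q) (tt q) = T at *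
  have h2 : (1 - A * B) * (T - 1) + (T - 1) * (A - 1 + A * (B - 1)) =
      T * (A * B) - A * B * T := by noncomm_ring
  rw [h2, h1, sub_self]

theorem emb_mem (c : ι → ZG Q) (hc : c ∈ RM q) : emb q c ∈ RM (x1 q) := by
  change fox (x1 q) (emb q c) = 0
  rw [fox_x1]
  simp only [emb, Sum.elim_inl, Sum.elim_inr, zero_mul, Finset.sum_const_zero, zero_add, add_zero]
  have h1 : ∑ i, c i * (MonoidAlgebra.of ℤ Q (q i) - 1) = 0 := hc
  have h2 := congrArg (phi q) h1
  rw [map_sum, map_zero] at h2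
  rw [← h2]
  refine Finset.sum_congr rfl fun i _ => ?_
  rw [map_mul, map_sub, phi_of, map_one]

theorem rm_fg (hq : Subgroup.closure (Set.range q) = ⊤) (hR : (RM q).FG) :
    (RM (x1 q)).FG := by
  classical
  obtain ⟨S, hS⟩ := hR
  let L : Submodule (ZG (G1 q)) ((ι ⊕ ι) ⊕ Unit → ZG (G1 q)) :=
    Submodule.span (ZG (G1 q)) (Set.range (fun p : ι × ι => r1 q p.1 p.2)) ⊔
    Submodule.span (ZG (G1 q)) ((S.image (emb q) : Finset _) : Set ((ι ⊕ ι) ⊕ Unit → ZG (G1 q))) ⊔
    Submodule.span (ZG (G1 q)) (Set.range (r3 q))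
  have hLfg : L.FG := by
    refine Submodule.FG.sup (Submodule.FG.sup ?_ ?_) ?_
    · exact Submodule.fg_span (Set.finite_range _)
    · exact ⟨_, rfl⟩
    · exact Submodule.fg_span (Set.finite_range _)
  have hL1 : ∀ i j, L.mkQ (r1 q i j) = 0 := by
    intro i j
    rw [Submodule.mkQ_apply, Submodule.Quotient.mk_eq_zero]
    exact Submodule.mem_sup_left (Submodule.mem_sup_left (Submodule.subset_span ⟨(i, j), rfl⟩))
  have hL3 : ∀ i, L.mkQ (r3 q i) = 0 := by
    intro i
    rw [Submodule.mkQ_apply, Submodule.Quotient.mk_eq_zero]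
    exact Submodule.mem_sup_right (Submodule.subset_span ⟨i, rfl⟩)
  have hL2 : ∀ c ∈ RM q, L.mkQ (emb q c) = 0 := by
    intro c hc
    rw [Submodule.mkQ_apply, Submodule.Quotient.mk_eq_zero]
    rw [← hS] at hc
    induction hc using Submodule.span_induction with
    | mem c hc =>
      refine Submodule.mem_sup_left (Submodule.mem_sup_right (Submodule.subset_span ?_))
      rw [Finset.mem_coe]
      exact Finset.mem_image_of_mem _ hc
    | zero =>
      have : emb q (0 : ι → ZG Q) = 0 := by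
        funext k
        rcases k with (i | i) | i <;> simp [emb]
      rw [this]; exact zero_mem _
    | add a b _ _ ha hb =>
      have : emb q (a + b) = emb q a + emb q b := by
        funext k
        rcases k with (i | i) | i <;> simp [emb]
      rw [this]; exact add_mem ha hb
    | smul r a _ ha =>
      have : emb q (r • a) = phi q r • emb q a := by
        funext k
        rcases k with (i | i) | i <;> simp [emb]
      rw [this]; exact Submodule.smul_mem _ _ ha
  obtain ⟨v, hv1, hv2⟩ := der_of_rm q hq (inQ q) (fun j => L.mkQ (Pi.single (Sum.inl (Sum.inr j)) 1))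
    (by
      intro c hc
      rw [← hL2 c hc, ← sum_smul_mk L (emb q c), Fintype.sum_sum_type, Fintype.sum_sum_type]
      simp only [emb, Sum.elim_inl, Sum.elim_inr, zero_smul, Finset.sum_const_zero, zero_add,
        add_zero]
      rfl)
  have hL1' := hL1
  have hL3' := hL3
  simp only [r1, r3, map_add, map_sub, map_smul, sub_smul, one_smul, smul_add] at hL1' hL3'
  obtain ⟨s, hs1, hs2, hs3, hs4⟩ := exists_sec q hq
    (fun i => L.mkQ (Pi.single (Sum.inl (Sum.inl i)) 1)) v (L.mkQ (Pi.single (Sum.inr ()) 1))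
    (fun y => hv1 y)
    (by
      intro i j
      rw [hv2]
      have := hL1' i j
      rw [← sub_eq_zero, ← this]
      abel)
    (by
      intro i
      rw [hv2]
      have := hL3' i
      rw [← sub_eq_zero, ← this, smul_add]
      abel)
  have hle := rm_le (x1 q) L s hs1 (by
    intro j
    rcases j with (i | i) | ⟨⟩
    · exact hs2 i
    · have := hs3 (q i)
      change (s (ofB q (1, q i))).m = _
      rw [this, hv2]
    · exact hs4)
  have hge : L ≤ RM (x1 q) := by
    refine sup_le (sup_le ?_ ?_) ?_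
    · rw [Submodule.span_le]
      rintro _ ⟨p, rfl⟩
      exact r1_mem q _ _
    · rw [Submodule.span_le]
      intro c hc
      rw [Finset.mem_coe, Finset.mem_image] at hc
      obtain ⟨d, hd, rfl⟩ := hc
      apply emb_mem
      rw [← hS]
      exact Submodule.subset_span hd
    · rw [Submodule.span_le]
      rintro _ ⟨p, rfl⟩
      exact r3_mem q _
  rw [le_antisymm hle hge]
  exact hLfg

theorem fp_G1 (hq : Subgroup.closure (Set.range q) = ⊤) (hR : (RM q).FG) : FPc 2 (G1 q) :=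
  m2 (x1 q) (closure_x1 q hq) (rm_fg q hq hR)

end

end Pool.Agent.N271.HC
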