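import Pool.Agent.N271.HC.Nf

set_option autoImplicit false
set_option linter.unusedSectionVars false

/-! # The Bestvina–Brady group is not finitely presented -/

namespace Pool.Agent.N271.HC

open Pool.Agent.W326.DU Pool.Agent.Y66.HC

section
variable {V : Type} [Nonempty V] (G : SimpleGraph V) {J : Type} [Group J] (γ : V → V → J)

/-- the height as an integer -/
def hz (p : RAAG G.Adj) : ℤ := Multiplicative.toAdd (ht G.Adj p)

theorem hz_mul (p p' : RAAG G.Adj) : hz G (p * p') = hz G p + hz G p' := by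
  unfold hz; rw [map_mul]; rfl

theorem hz_inv (p : RAAG G.Adj) : hz G p⁻¹ = - hz G p := by
  unfold hz; rw [map_inv]; rfl

theorem hz_gen (v : V) : hz G (gen G.Adj v) = 1 := by
  unfold hz; rw [ht_gen]; rfl

theorem hz_zpow (v : V) (k : ℤ) : hz G (gen G.Adj v ^ k) = k := by
  unfold hz
  rw [map_zpow, ht_gen, ← ofAdd_zsmul, toAdd_ofAdd, smul_eq_mul, mul_one]

theorem col_spec' (p : RAAG G.Adj) (hp : hz G p < 0) : hdA G (col G p) p ≠ 1 := by
  apply col_spec
  intro h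
  unfold hz at hp
  rw [h] at hp
  simp at hp

open Classical in
/-- the holonomy of an edge -/
noncomputable def kp (p : RAAG G.Adj) (v : V) : J :=
  if hz G p < 0 then γ (col G p) (col G (p * (gen G.Adj v)⁻¹)) else 1

/-- the action of a generator -/
noncomputable def tu (v : V) : Equiv.Perm (RAAG G.Adj × J) where
  toFun x := (x.1 * (gen G.Adj v)⁻¹, x.2 * kp G γ x.1 v)
  invFun x := (x.1 * gen G.Adj v, x.2 * (kp G γ (x.1 * gen G.Adj v) v)⁻¹)
  left_inv x := by
    ext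
    · simp
    · simp
  right_inv x := by
    ext
    · simp
    · simp

/-- the action of the free group -/
noncomputable def Fu : FreeGroup V →* Equiv.Perm (RAAG G.Adj × J) := FreeGroup.lift (tu G γ)

/-- evaluation in the RAAG -/
noncomputable def evF : FreeGroup V →* RAAG G.Adj := PresentedGroup.mk (rels G.Adj)

theorem evF_of (v : V) : evF G (FreeGroup.of v) = gen G.Adj v := rfl

theorem Fu_fst (r : FreeGroup V) (x : RAAG G.Adj × J) :
    (Fu G γ r x).1 = x.1 * (evF G r)⁻¹ := by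
  induction r using FreeGroup.induction_on generalizing x with
  | C1 => rw [map_one, map_one]; simp
  | of v =>
    rw [evF_of]
    simp [Fu, tu]
  | inv_of v h =>
    rw [map_inv, map_inv, inv_inv, evF_of]
    simp [Fu, tu]
  | mul a b ha hb =>
    rw [map_mul, map_mul, Equiv.Perm.mul_apply, ha, hb, mul_inv_rev, mul_assoc]

variable {γ}

/-- the cocycle condition -/
def IsCoc (γ : V → V → J) : Prop :=
  ∀ u v w, (u = v ∨ G.Adj u v) → (v = w ∨ G.Adj v w) → (u = w ∨ G.Adj u w) →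
    γ u v * γ v w = γ u w

theorem IsCoc.self (h : IsCoc G γ) (u : V) : γ u u = 1 := by
  have := h u u u (Or.inl rfl) (Or.inl rfl) (Or.inl rfl)
  exact mul_eq_left.1 this

theorem IsCoc.inv (h : IsCoc G γ) (u v : V) (huv : u = v ∨ G.Adj u v) : (γ u v)⁻¹ = γ v u := by
  have hvu : v = u ∨ G.Adj v u := by
    rcases huv with h | h
    · exact Or.inl h.symm
    · exact Or.inr h.symm
  have := h u v u huv hvu (Or.inl rfl)
  rw [h.self G] at this
  exact inv_eq_of_mul_eq_one_right this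

theorem IsCoc.tele (h : IsCoc G γ) (C : Set V) (hC : ∀ a ∈ C, ∀ b ∈ C, a = b ∨ G.Adj a b)
    {x y z : V} (hx : x ∈ C) (hy : y ∈ C) (hz : z ∈ C) (j : J) :
    j * γ x y * γ y z = j * γ x z := by
  rw [mul_assoc, h _ _ _ (hC _ hx _ hy) (hC _ hy _ hz) (hC _ hx _ hz)]

/-- moves inside a clique -/
theorem tu_apply (p : RAAG G.Adj) (v : V) (hp : hz G p < 0) (hj : J) :
    tu G γ v (p, hj) = (p * (gen G.Adj v)⁻¹, hj * γ (col G p) (col G (p * (gen G.Adj v)⁻¹))) := by
  ext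
  · rfl
  · change hj * kp G γ p v = _
    unfold kp
    rw [if_pos hp]

theorem tu_inv_apply (h : IsCoc G γ) (C : Set V) (hC : ∀ a ∈ C, ∀ b ∈ C, a = b ∨ G.Adj a b)
    (p : RAAG G.Adj) (v : V) (hp : hz G p < -1) (hj : J) (h1 : col G p ∈ C)
    (h2 : col G (p * gen G.Adj v) ∈ C) :
    (tu G γ v)⁻¹ (p, hj) = (p * gen G.Adj v, hj * γ (col G p) (col G (p * gen G.Adj v))) := by
  ext
  · rfl
  · change hj * (kp G γ (p * gen G.Adj v) v)⁻¹ = _
    unfold kp
    rw [if_pos (by rw [hz_mul, hz_gen]; omega), mul_inv_cancel_right,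
      h.inv G _ _ (hC _ h2 _ h1)]

/-- commuting squares -/
theorem square (h : IsCoc G γ) {u v : V} (huv : G.Adj u v) (p : RAAG G.Adj) (hp : hz G p < 0)
    (j : J) : tu G γ u (tu G γ v (p, j)) = tu G γ v (tu G γ u (p, j)) := by
  obtain ⟨C, hC, hcol⟩ := flat_clique G huv p
  have hc : Commute (gen G.Adj u) (gen G.Adj v) :=
    Pool.Agent.W304.DU.RG.gen_comm G.Adj u v huv
  have e1 : hz G (p * (gen G.Adj v)⁻¹) < 0 := by rw [hz_mul, hz_inv, hz_gen]; omega
  have e2 : hz G (p * (gen G.Adj u)⁻¹) < 0 := by rw [hz_mul, hz_inv, hz_gen]; omega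
  have e3 : hz G (p * (gen G.Adj v)⁻¹ * (gen G.Adj u)⁻¹) < 0 := by
    rw [hz_mul, hz_inv, hz_gen]; omega
  have m : ∀ k l : ℤ, hz G (p * gen G.Adj u ^ k * gen G.Adj v ^ l) < 0 →
      col G (p * gen G.Adj u ^ k * gen G.Adj v ^ l) ∈ C :=
    fun k l hkl => hcol k l _ (col_spec' G _ hkl)
  have m0 : col G p ∈ C := by
    have := m 0 0
    rw [zpow_zero, zpow_zero, mul_one, mul_one] at this
    exact this hp
  have m1 : col G (p * (gen G.Adj v)⁻¹) ∈ C := by
    have := m 0 (-1)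
    rw [zpow_zero, mul_one, zpow_neg_one] at this
    exact this e1
  have m2 : col G (p * (gen G.Adj u)⁻¹) ∈ C := by
    have := m (-1) 0
    rw [zpow_zero, mul_one, zpow_neg_one] at this
    exact this e2
  have e4 : p * (gen G.Adj v)⁻¹ * (gen G.Adj u)⁻¹ = p * (gen G.Adj u)⁻¹ * (gen G.Adj v)⁻¹ := by
    rw [mul_assoc, mul_assoc, ← mul_inv_rev, ← mul_inv_rev, hc.eq]
  have m3 : col G (p * (gen G.Adj u)⁻¹ * (gen G.Adj v)⁻¹) ∈ C := by
    have := m (-1) (-1)
    rw [zpow_neg_one, zpow_neg_one] at this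
    rw [e4] at e3
    exact this e3
  rw [tu_apply G p v hp, tu_apply G _ u e1, tu_apply G p u hp,
    tu_apply G _ v e2, e4, h.tele G C hC m0 m1 m3, h.tele G C hC m0 m2 m3]

/-- the normal subgroup of the words acting trivially far down -/
def NN (γ : V → V → J) : Subgroup (FreeGroup V) where
  carrier := {r | ∃ N : ℤ, ∀ p, hz G p < N → ∀ j, Fu G γ r (p, j) = (p, j)}
  one_mem' := ⟨0, fun p _ j => by rw [map_one]; rfl⟩
  mul_mem' := by
    rintro a b ⟨N, hN⟩ ⟨N', hN'⟩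
    refine ⟨min N N', fun p hp j => ?_⟩
    rw [map_mul, Equiv.Perm.mul_apply, hN' p (lt_of_lt_of_le hp (min_le_right _ _)),
      hN p (lt_of_lt_of_le hp (min_le_left _ _))]
  inv_mem' := by
    rintro a ⟨N, hN⟩
    refine ⟨N, fun p hp j => ?_⟩
    rw [map_inv, Equiv.Perm.inv_eq_iff_eq, hN p hp]

theorem conj_fix (g r : FreeGroup V) (N : ℤ)
    (hN : ∀ p, hz G p < N → ∀ j, Fu G γ r (p, j) = (p, j)) (p : RAAG G.Adj)
    (hp : hz G p + hz G (evF G g) < N) (j : J) : Fu G γ (g * r * g⁻¹) (p, j) = (p, j) := by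
  rw [map_mul, map_mul, Equiv.Perm.mul_apply, Equiv.Perm.mul_apply]
  set x := Fu G γ g⁻¹ (p, j) with hx
  have h1 : x.1 = p * evF G g := by
    rw [hx, Fu_fst, map_inv, inv_inv]
  have h2 : Fu G γ r x = x := hN x.1 (by rw [h1, hz_mul]; exact hp) x.2
  rw [h2, hx, map_inv, ← Equiv.Perm.mul_apply, mul_inv_cancel]
  rfl

instance NN_normal : (NN G γ).Normal := by
  constructor
  rintro r ⟨N, hN⟩ g
  refine ⟨N - hz G (evF G g), fun p hp j => conj_fix G g r N hN p (by omega) j⟩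

theorem rels_le (h : IsCoc G γ) : Subgroup.normalClosure (rels G.Adj) ≤ NN G γ := by
  apply Subgroup.normalClosure_le_normal
  rintro _ ⟨a, b, hab, rfl⟩
  refine ⟨-2, fun p hp j => ?_⟩
  rw [map_mul, map_mul, map_mul, map_inv, map_inv, Equiv.Perm.mul_apply, Equiv.Perm.mul_apply,
    Equiv.Perm.mul_apply]
  have hF : ∀ v, Fu G γ (FreeGroup.of v) = tu G γ v := fun v => by simp [Fu]
  rw [hF, hF]
  set y := (tu G γ a)⁻¹ ((tu G γ b)⁻¹ (p, j)) with hy
  have hy1 : y.1 = p * gen G.Adj b * gen G.Adj a := rfl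
  have h2 := square G h hab y.1 (by rw [hy1, hz_mul, hz_mul, hz_gen, hz_gen]; omega) y.2
  change tu G γ a (tu G γ b y) = tu G γ b (tu G γ a y) at h2
  rw [h2, hy]
  simp

/-- the translation of the words -/
def lam : FreeGroup (V × V) →* FreeGroup V :=
  FreeGroup.lift (fun p => FreeGroup.of p.1 * (FreeGroup.of p.2)⁻¹)

theorem hz_lam (g : FreeGroup (V × V)) : hz G (evF G (lam g)) = 0 := by
  have h1 : (ht G.Adj).comp ((evF G).comp lam) = 1 := by
    ext p
    simp [lam, evF_of, ht_gen]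
  unfold hz
  have := DFunLike.congr_fun h1 g
  change ht G.Adj (evF G (lam g)) = 1 at this
  rw [this]; rfl

/-- the loop of words -/
def loopW (p : ℕ → V) (n : ℕ) : ℕ → FreeGroup (V × V)
  | 0 => 1
  | i + 1 => FreeGroup.of (p (i + 1), p i) ^ n * loopW p n i

theorem evF_edge (a b : V) (hab : G.Adj a b) (n : ℕ) :
    evF G (lam (FreeGroup.of (a, b) ^ n)) = gen G.Adj a ^ (n : ℤ) * gen G.Adj b ^ (-(n : ℤ)) := by
  have hc : Commute (gen G.Adj a) (gen G.Adj b) :=
    Pool.Agent.W304.DU.RG.gen_comm G.Adj a b hab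
  have h1 : evF G (lam (FreeGroup.of (a, b))) = gen G.Adj a * (gen G.Adj b)⁻¹ := by
    simp [lam, evF_of]
  rw [map_pow, map_pow, h1, (hc.inv_right).mul_pow, zpow_natCast, zpow_neg, zpow_natCast, inv_pow]

theorem evF_loop (p : ℕ → V) (n : ℕ) (l : ℕ) (hp : ∀ i < l, G.Adj (p i) (p (i + 1))) :
    ∀ i ≤ l, evF G (lam (loopW p n i)) = gen G.Adj (p i) ^ (n : ℤ) * gen G.Adj (p 0) ^ (-(n : ℤ)) := by
  intro i
  induction i with
  | zero =>
    intro _
    change evF G (lam 1) = _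
    rw [map_one, map_one, ← zpow_add]; simp
  | succ i ih =>
    intro hi
    change evF G (lam (_ * _)) = _
    rw [map_mul, map_mul, ih (by omega), evF_edge G _ _ (hp i (by omega)).symm, mul_assoc,
      ← mul_assoc (gen G.Adj (p i) ^ (-(n : ℤ))), ← zpow_add]
    simp

/-- the holonomy along an edge, with powers -/
theorem edge_hol (h : IsCoc G γ) {a b : V} (hab : G.Adj a b) (n : ℕ) (hn : 2 ≤ n) (m : ℕ)
    (hm : m ≤ n) (j : J) :
    Fu G γ (lam (FreeGroup.of (a, b) ^ m)) (gen G.Adj b ^ (-(n : ℤ)), j) =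
      (gen G.Adj a ^ (-(m : ℤ)) * gen G.Adj b ^ (-(n : ℤ) + m),
        j * γ b (col G (gen G.Adj a ^ (-(m : ℤ)) * gen G.Adj b ^ (-(n : ℤ) + m)))) := by
  have hc : Commute (gen G.Adj a) (gen G.Adj b) :=
    Pool.Agent.W304.DU.RG.gen_comm G.Adj a b hab
  let C : Set V := {a, b}
  have hC : ∀ x ∈ C, ∀ y ∈ C, x = y ∨ G.Adj x y := by
    rintro x (rfl | rfl) y (rfl | rfl)
    · exact Or.inl rfl
    · exact Or.inr hab
    · exact Or.inr hab.symm
    · exact Or.inl rfl
  have hcolC : ∀ k l : ℤ, k + l < 0 → col G (gen G.Adj a ^ k * gen G.Adj b ^ l) ∈ C := by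
    intro k l hkl
    exact flat_one G hab k l _ (col_spec' G _ (by rw [hz_mul, hz_zpow, hz_zpow]; exact hkl))
  have hbC : b ∈ C := Or.inr rfl
  induction m with
  | zero =>
    rw [pow_zero, map_one, map_one]
    have e1 : gen G.Adj a ^ (-((0 : ℕ) : ℤ)) * gen G.Adj b ^ (-(n : ℤ) + ((0 : ℕ) : ℤ)) =
        gen G.Adj b ^ (-(n : ℤ)) := by simp
    rw [e1]
    have e2 : col G (gen G.Adj b ^ (-(n : ℤ))) = b :=
      col_pow G b _ _ (col_spec' G _ (by rw [hz_zpow]; omega))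
    rw [e2, h.self G, mul_one]
    rfl
  | succ m ih =>
    rw [pow_succ', map_mul, map_mul, Equiv.Perm.mul_apply, ih (by omega)]
    have hF : Fu G γ (lam (FreeGroup.of (a, b))) = tu G γ a * (tu G γ b)⁻¹ := by
      simp [Fu, lam]
    rw [hF, Equiv.Perm.mul_apply]
    have m1 : col G (gen G.Adj a ^ (-(m : ℤ)) * gen G.Adj b ^ (-(n : ℤ) + m)) ∈ C :=
      hcolC _ _ (by omega)
    have e1 : gen G.Adj a ^ (-(m : ℤ)) * gen G.Adj b ^ (-(n : ℤ) + m) * gen G.Adj b =
        gen G.Adj a ^ (-(m : ℤ)) * gen G.Adj b ^ (-(n : ℤ) + m + 1) := by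
      rw [mul_assoc, ← zpow_add_one]
    have m2 : col G (gen G.Adj a ^ (-(m : ℤ)) * gen G.Adj b ^ (-(n : ℤ) + m) * gen G.Adj b) ∈ C := by
      rw [e1]
      exact hcolC _ _ (by omega)
    rw [tu_inv_apply G h C hC _ b (by rw [hz_mul, hz_zpow, hz_zpow]; omega) _ m1 m2]
    rw [tu_apply G _ a (by rw [e1, hz_mul, hz_zpow, hz_zpow]; omega)]
    have e2 : gen G.Adj a ^ (-(m : ℤ)) * gen G.Adj b ^ (-(n : ℤ) + m) * gen G.Adj b *
        (gen G.Adj a)⁻¹ = gen G.Adj a ^ (-((m + 1 : ℕ) : ℤ)) *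
          gen G.Adj b ^ (-(n : ℤ) + ((m + 1 : ℕ) : ℤ)) := by
      rw [e1, mul_assoc]
      have h3 : gen G.Adj b ^ (-(n : ℤ) + m + 1) * (gen G.Adj a)⁻¹ =
          (gen G.Adj a)⁻¹ * gen G.Adj b ^ (-(n : ℤ) + m + 1) :=
        ((hc.symm.inv_right).zpow_left _).eq
      rw [h3, ← mul_assoc, ← zpow_sub_one]
      push_cast
      congr 2 <;> ring
    have m3 : col G (gen G.Adj a ^ (-((m + 1 : ℕ) : ℤ)) *
          gen G.Adj b ^ (-(n : ℤ) + ((m + 1 : ℕ) : ℤ))) ∈ C :=
      hcolC _ _ (by omega)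
    rw [e2, h.tele G C hC hbC m1 m2, h.tele G C hC hbC m2 m3]

theorem loop_hol (h : IsCoc G γ) (p : ℕ → V) (l : ℕ) (hp : ∀ i < l, G.Adj (p i) (p (i + 1)))
    (n : ℕ) (hn : 2 ≤ n) : ∀ i ≤ l, Fu G γ (lam (loopW p n i)) (gen G.Adj (p 0) ^ (-(n : ℤ)), 1) =
      (gen G.Adj (p i) ^ (-(n : ℤ)), ((List.range i).map (fun i => γ (p i) (p (i + 1)))).prod) := by
  intro i
  induction i with
  | zero =>
    intro _
    change Fu G γ (lam 1) _ = _
    rw [map_one, map_one]
    simp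
  | succ i ih =>
    intro hi
    change Fu G γ (lam (_ * _)) _ = _
    rw [map_mul, map_mul, Equiv.Perm.mul_apply, ih (by omega),
      edge_hol G h (hp i (by omega)).symm n hn n le_rfl]
    have e1 : gen G.Adj (p (i + 1)) ^ (-(n : ℤ)) * gen G.Adj (p i) ^ (-(n : ℤ) + n) =
        gen G.Adj (p (i + 1)) ^ (-(n : ℤ)) := by simp
    rw [e1]
    have e2 : col G (gen G.Adj (p (i + 1)) ^ (-(n : ℤ))) = p (i + 1) :=
      col_pow G _ _ _ (col_spec' G _ (by rw [hz_zpow]; omega))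
    rw [e2, List.range_succ, List.map_append, List.prod_append]
    simp

/-- the generators of the Bestvina–Brady group -/
def qB (x : V × V) : BB G.Adj := ⟨gen G.Adj x.1 * (gen G.Adj x.2)⁻¹, by
  rw [MonoidHom.mem_ker, map_mul, map_inv, ht_gen, ht_gen, mul_inv_cancel]⟩

theorem qB_lam (r : FreeGroup (V × V)) :
    ((FreeGroup.lift (qB G) r : BB G.Adj) : RAAG G.Adj) = evF G (lam r) := by
  have : (BB G.Adj).subtype.comp (FreeGroup.lift (qB G)) = (evF G).comp lam := by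
    ext p
    simp [lam, evF_of, qB]
  exact DFunLike.congr_fun this r

theorem mem_ker_qB (r : FreeGroup (V × V)) :
    r ∈ (FreeGroup.lift (qB G)).ker ↔ lam r ∈ Subgroup.normalClosure (rels G.Adj) := by
  rw [MonoidHom.mem_ker, ← Subtype.coe_inj, qB_lam]
  change evF G (lam r) = 1 ↔ _
  exact QuotientGroup.eq_one_iff _

/-- the normal subgroup of the words in the generators of `H` acting trivially below `N` -/
def NH (γ : V → V → J) (N : ℤ) : Subgroup (FreeGroup (V × V)) where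
  carrier := {r | ∀ p, hz G p < N → ∀ j, Fu G γ (lam r) (p, j) = (p, j)}
  one_mem' := fun p _ j => by rw [map_one, map_one]; rfl
  mul_mem' := by
    intro a b ha hb p hp j
    rw [map_mul, map_mul, Equiv.Perm.mul_apply, hb p hp, ha p hp]
  inv_mem' := by
    intro a ha p hp j
    rw [map_inv, map_inv, Equiv.Perm.inv_eq_iff_eq, ha p hp]

instance NH_normal (N : ℤ) : (NH G γ N).Normal := by
  constructor
  intro r hr g p hp j
  rw [map_mul, map_mul lam g r, map_inv]
  exact conj_fix G (lam g) (lam r) N hr p (by rw [hz_lam]; omega) j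

theorem NH_mono {N N' : ℤ} (h : N' ≤ N) : NH G γ N ≤ NH G γ N' :=
  fun _ hr p hp j => hr p (lt_of_lt_of_le hp h) j

/-- **not finitely presented** -/
theorem not_fp (h : IsCoc G γ) (p : ℕ → V) (l : ℕ) (hp : ∀ i < l, G.Adj (p i) (p (i + 1)))
    (hcl : p l = p 0) (hhol : ((List.range l).map (fun i => γ (p i) (p (i + 1)))).prod ≠ 1) :
    ¬ ∃ T : Finset (FreeGroup (V × V)), Subgroup.normalClosure (T : Set (FreeGroup (V × V))) =
      (FreeGroup.lift (qB G)).ker := by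
  rintro ⟨T, hT⟩
  have h1 : ∀ r ∈ (FreeGroup.lift (qB G)).ker, ∃ N : ℤ, r ∈ NH G γ N := by
    intro r hr
    obtain ⟨N, hN⟩ := rels_le G h ((mem_ker_qB G r).1 hr)
    exact ⟨N, hN⟩
  have h2 : ∀ T' : Finset (FreeGroup (V × V)), (∀ r ∈ T', ∃ N : ℤ, r ∈ NH G γ N) →
      ∃ N : ℤ, ∀ r ∈ T', r ∈ NH G γ N := by
    classical
    intro T'
    induction T' using Finset.induction_on with
    | empty => exact fun _ => ⟨0, fun r hr => absurd hr (Finset.notMem_empty r)⟩
    | insert a T' _ ih =>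
      intro hT'
      obtain ⟨N, hN⟩ := ih (fun r hr => hT' r (Finset.mem_insert_of_mem hr))
      obtain ⟨N', hN'⟩ := hT' a (Finset.mem_insert_self _ _)
      refine ⟨min N N', fun r hr => ?_⟩
      rcases Finset.mem_insert.1 hr with rfl | hr
      · exact NH_mono G (min_le_right _ _) hN'
      · exact NH_mono G (min_le_left _ _) (hN r hr)
  obtain ⟨N, hN⟩ := h2 T (fun r hr => h1 r (by rw [← hT]; exact Subgroup.subset_normalClosure hr))
  have h3 : (FreeGroup.lift (qB G)).ker ≤ NH G γ N := by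
    rw [← hT]
    exact Subgroup.normalClosure_le_normal hN
  set n : ℕ := (-N).toNat + 2 with hn
  have h4 : loopW p n l ∈ (FreeGroup.lift (qB G)).ker := by
    rw [MonoidHom.mem_ker, ← Subtype.coe_inj, qB_lam, evF_loop G p n l hp l le_rfl, hcl, ← zpow_add]
    simp
  have h5 := h3 h4 (gen G.Adj (p 0) ^ (-(n : ℤ))) (by rw [hz_zpow]; omega) 1
  rw [loop_hol G h p l hp n (by omega) l le_rfl] at h5
  exact hhol (congrArg Prod.snd h5)

end

end Pool.Agent.N271.HC
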