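import Pool.Agent.N271.HC.Alg
import Pool.Agent.Y448.HC.Aug

set_option autoImplicit false

/-! # Groups of type `FP₂` have finitely generated relation modules -/

namespace Pool.Agent.N271.HC

open CategoryTheory CategoryTheory.Limits Pool.Agent.Helper158 Pool.Agent.W326.DU Pool.Agent.Y66.HC

section
variable {k G : Type} [CommRing k] [Group G]

/-- the module of a representation -/
abbrev Mo (X : Rep.{0} k G) : Type := X.ρ.asModule

/-- the linear map of a morphism -/
noncomputable def lin {X Y : Rep.{0} k G} (f : X ⟶ Y) : Mo X →ₗ[MonoidAlgebra k G] Mo Y :=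
  mkLin (Y.ρ.asModuleEquiv.symm.toLinearMap ∘ₗ f.hom.toLinearMap ∘ₗ
        X.ρ.asModuleEquiv.toLinearMap) (by
        intro g x
        change Y.ρ.asModuleEquiv.symm (f.hom (X.ρ.asModuleEquiv (MonoidAlgebra.of k G g • x))) =
          MonoidAlgebra.of k G g • Y.ρ.asModuleEquiv.symm (f.hom (X.ρ.asModuleEquiv x))
        rw [← Representation.asModuleEquiv_symm_map_rho, ← Rep.hom_comm_apply,
          Representation.asModuleEquiv_map_smul]
        simp)

theorem lin_apply {X Y : Rep.{0} k G} (f : X ⟶ Y) (x : Mo X) :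
    lin f x = Y.ρ.asModuleEquiv.symm (f.hom (X.ρ.asModuleEquiv x)) := rfl

theorem rep_exact_elt (S : ShortComplex (Rep.{0} k G)) (hS : S.Exact) (x : S.X₂)
    (hx : S.g.hom x = 0) : ∃ y : S.X₁, S.f.hom y = x := by
  have h := (ShortComplex.moduleCat_exact_iff _).1 (hS.map (forget₂ (Rep.{0} k G) (ModuleCat k)))
  exact h x hx

theorem lin_exact {X Y Z : Rep.{0} k G} (f : X ⟶ Y) (g : Y ⟶ Z) (w : f ≫ g = 0)
    (hS : (ShortComplex.mk f g w).Exact) (y : Mo Y) : lin g y = 0 ↔ y ∈ LinearMap.range (lin f) := by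
  constructor
  · intro h
    rw [lin_apply] at h
    have h1 : g.hom (Y.ρ.asModuleEquiv y) = 0 := by
      have := congrArg Z.ρ.asModuleEquiv h
      simpa using this
    obtain ⟨x, hx⟩ := rep_exact_elt _ hS _ h1
    refine ⟨X.ρ.asModuleEquiv.symm x, ?_⟩
    rw [lin_apply]
    simp only [LinearEquiv.apply_symm_apply]
    have h2 : f.hom x = Y.ρ.asModuleEquiv y := hx
    rw [h2]
    simp
  · rintro ⟨x, rfl⟩
    rw [lin_apply, lin_apply]
    have : g.hom (f.hom (X.ρ.asModuleEquiv x)) = 0 := by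
      change (f ≫ g).hom (X.ρ.asModuleEquiv x) = 0
      rw [w]
      rfl
    simp [this]

theorem proj_mo (X : Rep.{0} k G) [Projective X] : Module.Projective (MonoidAlgebra k G) (Mo X) := by
  let Λ := MonoidAlgebra k G
  let q : (Mo X →₀ Λ) →ₗ[Λ] Mo X := Finsupp.linearCombination Λ id
  have hq : Function.Surjective q := Finsupp.linearCombination_id_surjective Λ (Mo X)
  let e : FMk k (G := G) (Mo X →₀ Λ) ⟶ X :=
    mkHom (M := (Mo X →₀ Λ)) (k := k) (G := G) (σ := X.ρ)
      (X.ρ.asModuleEquiv.toLinearMap ∘ₗ q.restrictScalars k) (by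
      intro g x
      change X.ρ.asModuleEquiv (q (MonoidAlgebra.of k G g • x)) = X.ρ g (X.ρ.asModuleEquiv (q x))
      rw [map_smul, Representation.asModuleEquiv_map_smul]
      simp)
  have hep : Epi e := by
    rw [Rep.epi_iff_surjective]
    intro x
    obtain ⟨y, hy⟩ := hq (X.ρ.asModuleEquiv.symm x)
    refine ⟨y, ?_⟩
    change X.ρ.asModuleEquiv (q y) = x
    rw [hy]
    simp
  let s : X ⟶ FMk k (G := G) (Mo X →₀ Λ) := Projective.factorThru (𝟙 X) e
  have hs : s ≫ e = 𝟙 X := Projective.factorThru_comp _ _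
  let s' : Mo X →ₗ[Λ] (Mo X →₀ Λ) := mkLin (k := k) (G := G) (N := (Mo X →₀ Λ))
    ((s.hom.toLinearMap : X →ₗ[k] (Mo X →₀ Λ)) ∘ₗ X.ρ.asModuleEquiv.toLinearMap) (by
      intro g x
      change s.hom (X.ρ.asModuleEquiv (MonoidAlgebra.of k G g • x)) = _
      rw [Representation.asModuleEquiv_map_smul]
      have := Rep.hom_comm_apply s g (X.ρ.asModuleEquiv x)
      simp only [Representation.asAlgebraHom_of]
      exact this)
  refine Module.Projective.of_split s' q ?_
  ext x
  change q (s.hom (X.ρ.asModuleEquiv x)) = x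
  have h1 : e.hom (s.hom (X.ρ.asModuleEquiv x)) = X.ρ.asModuleEquiv x := by
    change (s ≫ e).hom (X.ρ.asModuleEquiv x) = _
    rw [hs]
    rfl
  have h2 : X.ρ.asModuleEquiv (q (s.hom (X.ρ.asModuleEquiv x))) = X.ρ.asModuleEquiv x := h1
  exact X.ρ.asModuleEquiv.injective h2

theorem finite_mo (X : Rep.{0} k G) (h : ∃ s : Finset X.V, ∀ x : X.V,
      x ∈ AddSubgroup.closure (Set.range (fun p : G × s => X.ρ p.1 (p.2 : X.V)))) :
    Module.Finite (MonoidAlgebra k G) (Mo X) := by
  classical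
  obtain ⟨s, hs⟩ := h
  refine ⟨⟨s.image X.ρ.asModuleEquiv.symm, ?_⟩⟩
  rw [eq_top_iff]
  rintro x -
  have h1 := hs (X.ρ.asModuleEquiv x)
  have h2 : ∀ y : X.V, y ∈ AddSubgroup.closure (Set.range (fun p : G × s => X.ρ p.1 (p.2 : X.V))) →
      X.ρ.asModuleEquiv.symm y ∈ Submodule.span (MonoidAlgebra k G)
        ((s.image X.ρ.asModuleEquiv.symm : Finset (Mo X)) : Set (Mo X)) := by
    intro y hy
    induction hy using AddSubgroup.closure_induction with
    | mem y hy =>
      obtain ⟨p, rfl⟩ := hy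
      dsimp only
      rw [Representation.asModuleEquiv_symm_map_rho]
      apply Submodule.smul_mem
      apply Submodule.subset_span
      rw [Finset.mem_coe]
      exact Finset.mem_image_of_mem _ p.2.2
    | zero => rw [map_zero]; exact zero_mem _
    | add a b _ _ ha hb => rw [map_add]; exact add_mem ha hb
    | neg a _ ha => rw [map_neg]; exact neg_mem ha
  have h3 := h2 _ h1
  simpa using h3

theorem surj_mo {X Y : Rep.{0} k G} (f : X ⟶ Y) [Epi f] : Function.Surjective (lin f) := by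
  intro y
  obtain ⟨x, hx⟩ := (Rep.epi_iff_surjective f).1 inferInstance (Y.ρ.asModuleEquiv y)
  refine ⟨X.ρ.asModuleEquiv.symm x, ?_⟩
  rw [lin_apply]
  simp only [LinearEquiv.apply_symm_apply]
  rw [hx]
  simp

end

section
variable {G : Type} [Group G]

/-- type `FP_m` in module terms, `m = 2`: data -/
theorem exists_modules (h : FPc 2 G) : ∃ (T P0 P1 P2 : Type)
    (_ : AddCommGroup T) (_ : Module (ZG G) T)
    (_ : AddCommGroup P0) (_ : Module (ZG G) P0) (_ : AddCommGroup P1) (_ : Module (ZG G) P1)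
    (_ : AddCommGroup P2) (_ : Module (ZG G) P2)
    (_ : Module.Projective (ZG G) P0) (_ : Module.Projective (ZG G) P1)
    (_ : Module.Finite (ZG G) P2) (ε : P0 →ₗ[ZG G] T) (d1 : P1 →ₗ[ZG G] P0)
    (d2 : P2 →ₗ[ZG G] P1) (τ : T ≃+ ℤ),
    (∀ (a : ZG G) (t : T), τ (a • t) = augm G a * τ t) ∧
    Function.Surjective ε ∧ (∀ p, ε p = 0 ↔ p ∈ LinearMap.range d1) ∧
    (∀ p, d1 p = 0 ↔ p ∈ LinearMap.range d2) := by
  obtain ⟨R, hR⟩ := h
  have hfin : Module.Finite (ZG G) (Mo (R.complex.X 2)) := by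
    obtain ⟨s, hs⟩ := hR 2 le_rfl
    refine finite_mo _ ⟨s, fun x => ?_⟩
    have := hs x
    rwa [← Submodule.mem_toAddSubgroup, Submodule.span_int_eq_addSubgroupClosure] at this
  have hp0 := proj_mo (R.complex.X 0)
  have hp1 := proj_mo (R.complex.X 1)
  let π : R.complex.X 0 ⟶ Rep.trivial ℤ G ℤ := R.π.f 0
  refine ⟨Mo (Rep.trivial ℤ G ℤ), Mo (R.complex.X 0), Mo (R.complex.X 1), Mo (R.complex.X 2),
    inferInstance, inferInstance, inferInstance, inferInstance, inferInstance, inferInstance,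
    inferInstance, inferInstance, hp0, hp1, hfin, lin π, lin (R.complex.d 1 0),
    lin (R.complex.d 2 1), (Rep.trivial ℤ G ℤ).ρ.asModuleEquiv.toAddEquiv, ?_, ?_, ?_, ?_⟩
  · intro a t
    change (Rep.trivial ℤ G ℤ).ρ.asModuleEquiv (a • t) =
      augm G a * (Rep.trivial ℤ G ℤ).ρ.asModuleEquiv t
    induction a using MonoidAlgebra.induction_on with
    | of g =>
      rw [Representation.asModuleEquiv_map_smul, Pool.Agent.Y448.HC.augm_of, one_mul,
        Representation.asAlgebraHom_of]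
      rfl
    | add a b ha hb => rw [add_smul, map_add, map_add, ha, hb, add_mul]
    | smul n a ha =>
      rw [smul_assoc, map_smul, ha, map_zsmul, smul_mul_assoc]
  · have : Epi π := inferInstanceAs (Epi (R.π.f 0))
    exact surj_mo π
  · exact lin_exact _ _ _ R.exact₀
  · exact lin_exact _ _ _ (R.exact_succ 0)

/-- **M1** for families indexed by a finite type -/
theorem m1 {ι : Type} [Fintype ι] (x : ι → G) (hx : Subgroup.closure (Set.range x) = ⊤)
    (h : FPc 2 G) : (RM x).FG := by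
  obtain ⟨T, P0, P1, P2, _, _, _, _, _, _, _, _, _, _, _, ε, d1, d2, τ, hτ, hs, h0, h1⟩ :=
    exists_modules h
  let ε' : ZG G →ₗ[ZG G] T := LinearMap.toSpanSingleton (ZG G) T (τ.symm 1)
  have hε' : ∀ a, τ (ε' a) = augm G a := by
    intro a
    change τ (a • τ.symm 1) = _
    rw [hτ, AddEquiv.apply_symm_apply, mul_one]
  refine schanuel (Λ := ZG G) ε d1 d2 ε' (fox x) hs h0 h1 ?_ ?_
  · intro t
    obtain ⟨a, ha⟩ := Pool.Agent.Y448.HC.augm_surj (G := G) (τ t)
    refine ⟨a, τ.injective ?_⟩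
    rw [hε', ha]
  · intro a
    rw [← Pool.Agent.Y448.HC.fox_exact x hx, ← hε', ← AddEquiv.map_eq_zero_iff τ]

end

end Pool.Agent.N271.HC
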