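import Pool.Agent.N271.HC.M1

set_option autoImplicit false

/-! # Building projective resolutions -/

namespace Pool.Agent.N271.HC

open CategoryTheory CategoryTheory.Limits Pool.Agent.Helper158 Pool.Agent.W326.DU Pool.Agent.Y66.HC

section
variable {G : Type} [Group G]

theorem finite_rep (M : Type) [AddCommGroup M] [Module (ZG G) M] [Module.Finite (ZG G) M] :
    ∃ s : Finset M, ∀ x : M,
      x ∈ Submodule.span ℤ (Set.range (fun p : G × s => rho (k := ℤ) (G := G) M p.1 (p.2 : M))) := by
  classical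
  obtain ⟨s, hs⟩ := (Module.Finite.fg_top : (⊤ : Submodule (ZG G) M).FG)
  refine ⟨s, fun x => ?_⟩
  have hx : x ∈ Submodule.span (ZG G) (s : Set M) := by rw [hs]; trivial
  induction hx using Submodule.span_induction with
  | mem y hy =>
    apply Submodule.subset_span
    refine ⟨(1, ⟨y, hy⟩), ?_⟩
    simp
  | zero => exact zero_mem _
  | add a b _ _ ha hb => exact add_mem ha hb
  | smul c a h' ha =>
    clear h'
    induction c using MonoidAlgebra.induction_on with
    | of g =>
      induction ha using Submodule.span_induction with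
      | mem y hy =>
        obtain ⟨p, rfl⟩ := hy
        apply Submodule.subset_span
        refine ⟨(g * p.1, p.2), ?_⟩
        dsimp only
        rw [map_mul]
        rfl
      | zero => rw [smul_zero]; exact zero_mem _
      | add a b _ _ ha hb => rw [smul_add]; exact add_mem ha hb
      | smul n a _ ha =>
        rw [smul_comm]
        exact Submodule.smul_mem _ _ ha
    | add c d hc hd => rw [add_smul]; exact add_mem hc hd
    | smul n c hc => rw [smul_assoc]; exact Submodule.smul_mem _ _ hc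

theorem fpc_of_reso {P : ℕ → Type} [∀ i, AddCommGroup (P i)]
    [∀ i, Module (MonoidAlgebra ℤ G) (P i)] {d : ∀ i, P (i + 1) →ₗ[MonoidAlgebra ℤ G] P i}
    {ε : P 0 →+ ℤ} [∀ i, Module.Projective (MonoidAlgebra ℤ G) (P i)] (h : Reso P d ε) (m : ℕ)
    (hfin : ∀ k ≤ m, Module.Finite (ZG G) (P k)) : FPc m G := by
  refine ⟨h.pr, fun k hk => ?_⟩
  have := hfin k hk
  exact finite_rep (P k)

/-- a stage of a free resolution -/
structure Stg (Λ : Type) [Ring Λ] where
  P : ModuleCat.{0} Λ
  N : ModuleCat.{0} Λ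
  d : P →ₗ[Λ] N
  proj : Module.Projective Λ P

/-- the next stage -/
noncomputable def Stg.next {Λ : Type} [Ring Λ] (s : Stg Λ) : Stg Λ where
  P := ModuleCat.of Λ (LinearMap.ker s.d →₀ Λ)
  N := s.P
  d := Finsupp.linearCombination Λ (fun x : LinearMap.ker s.d => (x : s.P))
  proj := inferInstanceAs (Module.Projective Λ (LinearMap.ker s.d →₀ Λ))

theorem Stg.exact {Λ : Type} [Ring Λ] (s : Stg Λ) (x : s.P) :
    s.d x = 0 ↔ ∃ y : s.next.P, s.next.d y = x := by
  constructor
  · intro h
    refine ⟨Finsupp.single ⟨x, h⟩ 1, ?_⟩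
    change Finsupp.linearCombination Λ (fun x : LinearMap.ker s.d => (x : s.P)) _ = x
    rw [Finsupp.linearCombination_single, one_smul]
  · rintro ⟨y, rfl⟩
    have h : s.d ∘ₗ Finsupp.linearCombination Λ (fun x : LinearMap.ker s.d => (x : s.P)) = 0 := by
      apply Finsupp.lhom_ext
      intro i c
      rw [LinearMap.comp_apply, Finsupp.linearCombination_single, map_smul, i.2, smul_zero]
      rfl
    exact LinearMap.congr_fun h y

/-- the stages -/
noncomputable def sq {Λ : Type} [Ring Λ] (s : Stg Λ) : ℕ → Stg Λ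
  | 0 => s
  | n + 1 => (sq s n).next

/-- the modules of the extended resolution -/
noncomputable def PM {Λ : Type} [Ring Λ] (P0 : ModuleCat.{0} Λ) (s : Stg Λ) : ℕ → ModuleCat.{0} Λ
  | 0 => P0
  | 1 => s.N
  | n + 2 => (sq s n).P

/-- the differentials of the extended resolution -/
noncomputable def dM {Λ : Type} [Ring Λ] (P0 : ModuleCat.{0} Λ) (s : Stg Λ) (d1 : s.N →ₗ[Λ] P0) :
    ∀ i, PM P0 s (i + 1) →ₗ[Λ] PM P0 s i
  | 0 => d1
  | 1 => s.d
  | n + 2 => (sq s (n + 1)).d

/-- every partial resolution extends -/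
theorem fpc_two_of_partial (P0 P1 P2 : Type) [AddCommGroup P0] [Module (ZG G) P0] [AddCommGroup P1]
    [Module (ZG G) P1] [AddCommGroup P2] [Module (ZG G) P2]
    [Module.Projective (ZG G) P0] [Module.Projective (ZG G) P1] [Module.Projective (ZG G) P2]
    [Module.Finite (ZG G) P0] [Module.Finite (ZG G) P1] [Module.Finite (ZG G) P2]
    (ε : P0 →+ ℤ) (d1 : P1 →ₗ[ZG G] P0) (d2 : P2 →ₗ[ZG G] P1)
    (hs : Function.Surjective ε) (he : ∀ (g : G) (x : P0), ε (MonoidAlgebra.of ℤ G g • x) = ε x)
    (h0 : ∀ p, ε p = 0 ↔ p ∈ LinearMap.range d1)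
    (h1 : ∀ p, d1 p = 0 ↔ p ∈ LinearMap.range d2) : FPc 2 G := by
  let s : Stg (ZG G) := ⟨ModuleCat.of (ZG G) P2, ModuleCat.of (ZG G) P1, d2, ‹_›⟩
  have hex : ∀ (i : ℕ) (x : PM (ModuleCat.of (ZG G) P0) s (i + 1)),
      dM (ModuleCat.of (ZG G) P0) s d1 i x = 0 ↔
        x ∈ LinearMap.range (dM (ModuleCat.of (ZG G) P0) s d1 (i + 1)) := by
    intro i x
    match i, x with
    | 0, x => exact h1 x
    | 1, x => exact Stg.exact s x
    | n + 2, x => exact Stg.exact (sq s (n + 1)) x
  have hr : Reso (G := G) (fun i => (PM (ModuleCat.of (ZG G) P0) s i : Type))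
      (dM (ModuleCat.of (ZG G) P0) s d1) ε := ⟨hs, he, h0, hex⟩
  have hproj : ∀ i, Module.Projective (ZG G) (PM (ModuleCat.of (ZG G) P0) s i) := by
    intro i
    match i with
    | 0 => exact inferInstanceAs (Module.Projective (ZG G) P0)
    | 1 => exact inferInstanceAs (Module.Projective (ZG G) P1)
    | n + 2 => exact (sq s n).proj
  refine fpc_of_reso hr 2 ?_
  intro k hk
  match k, hk with
  | 0, _ => exact inferInstanceAs (Module.Finite (ZG G) P0)
  | 1, _ => exact inferInstanceAs (Module.Finite (ZG G) P1)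
  | 2, _ => exact inferInstanceAs (Module.Finite (ZG G) P2)

/-- **M2** -/
theorem m2 {ι : Type} [Fintype ι] (x : ι → G) (hx : Subgroup.closure (Set.range x) = ⊤)
    (h : (RM x).FG) : FPc 2 G := by
  obtain ⟨n, f, hf⟩ := (Submodule.fg_iff_exists_fin_linearMap _ _).1 h
  refine fpc_two_of_partial (ZG G) (ι → ZG G) (Fin n → ZG G) (augm G) (fox x) f
    Pool.Agent.Y448.HC.augm_surj ?_ ?_ ?_
  · intro g a
    rw [smul_eq_mul, Pool.Agent.Y448.HC.augm_mul, Pool.Agent.Y448.HC.augm_of, one_mul]
  · intro p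
    exact Pool.Agent.Y448.HC.fox_exact x hx p
  · intro p
    rw [hf]
    rfl

end

end Pool.Agent.N271.HC
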