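import Pool.Agent.N271.HC.Stm
import Pool.Agent.R711.GP.Word
import Pool.Agent.W304.DU.RG

set_option autoImplicit false
set_option linter.unusedSectionVars false

/-! # Colours of the elements of a right-angled Artin group -/

namespace Pool.Agent.N271.HC

open Pool.Agent.W326.DU Pool.Agent.Y66.HC
open Pool.Agent.R711.GP (GraphProduct head ι_one ι_mul ι_comm head_self head_adj head_ne head_excl
  ev ev_nil ev_cons ev_append Red head_red exists_red len len_red len_le len_mul_one red_of_min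
  hd hd_block head_link)

section
variable {V : Type} (G : SimpleGraph V)

/-- the graph product of infinite cyclic groups -/
abbrev GPZ : Type := GraphProduct G (fun _ : V => Multiplicative ℤ)

/-- the vertex groups -/
noncomputable def ih (v : V) : Multiplicative ℤ →* GPZ G where
  toFun m := Pool.Agent.R711.GP.ι (M := fun _ : V => Multiplicative ℤ) G v m
  map_one' := ι_one (M := fun _ : V => Multiplicative ℤ) v
  map_mul' := ι_mul (M := fun _ : V => Multiplicative ℤ) v

/-- the vertex groups in the units -/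
noncomputable def uh (v : V) : Multiplicative ℤ →* (GPZ G)ˣ :=
  (Units.map (ih G v)).comp (toUnits (G := Multiplicative ℤ)).toMonoidHom

theorem uh_val (v : V) (m : Multiplicative ℤ) : (uh G v m : GPZ G) = ih G v m := rfl

theorem uh_comm {a b : V} (h : G.Adj a b) (x y : Multiplicative ℤ) :
    uh G a x * uh G b y = uh G b y * uh G a x :=
  Units.ext (ι_comm (M := fun _ : V => Multiplicative ℤ) h x y)

/-- the map to the graph product, in the units -/
noncomputable def Phu : RAAG G.Adj →* (GPZ G)ˣ :=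
  PresentedGroup.toGroup (f := fun v => uh G v (Multiplicative.ofAdd 1)) (by
    rintro _ ⟨a, b, hab, rfl⟩
    rw [map_mul, map_mul, map_mul, map_inv, map_inv, FreeGroup.lift_apply_of,
      FreeGroup.lift_apply_of, mul_inv_eq_one, mul_inv_eq_iff_eq_mul]
    exact uh_comm G hab _ _)

/-- the map to the graph product -/
noncomputable def Phi : RAAG G.Adj →* GPZ G := (Units.coeHom (GPZ G)).comp (Phu G)

theorem Phi_zpow (v : V) (k : ℤ) : Phi G (gen G.Adj v ^ k) = ih G v (Multiplicative.ofAdd k) := by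
  have h1 : Phu G (gen G.Adj v) = uh G v (Multiplicative.ofAdd 1) := PresentedGroup.toGroup.of _
  change ((Phu G (gen G.Adj v ^ k) : (GPZ G)ˣ) : GPZ G) = _
  rw [map_zpow, h1, ← map_zpow, uh_val]
  congr 1
  rw [← ofAdd_zsmul, smul_eq_mul, mul_one]

/-- the head exponent of an element -/
noncomputable def hdA (v : V) (p : RAAG G.Adj) : Multiplicative ℤ := head v (Phi G p)

theorem hdA_self (v : V) (k : ℤ) (p : RAAG G.Adj) :
    hdA G v (gen G.Adj v ^ k * p) = Multiplicative.ofAdd k * hdA G v p := by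
  unfold hdA
  rw [map_mul, Phi_zpow]
  exact head_self (M := fun _ : V => Multiplicative ℤ) v _ _

theorem hdA_adj {u v : V} (h : G.Adj u v) (k : ℤ) (p : RAAG G.Adj) :
    hdA G v (gen G.Adj u ^ k * p) = hdA G v p := by
  unfold hdA
  rw [map_mul, Phi_zpow]
  exact head_adj (M := fun _ : V => Multiplicative ℤ) h _ _

theorem hdA_ne {u v : V} (h1 : v ≠ u) (h2 : ¬ G.Adj u v) (k : ℤ) (p : RAAG G.Adj)
    (hk : Multiplicative.ofAdd k * hdA G u p ≠ 1) : hdA G v (gen G.Adj u ^ k * p) = 1 := by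
  unfold hdA at hk ⊢
  rw [map_mul, Phi_zpow]
  exact head_ne (M := fun _ : V => Multiplicative ℤ) h1 h2 _ _ hk

theorem hdA_one (v : V) : hdA G v 1 = 1 := by
  unfold hdA
  rw [map_one]
  exact Pool.Agent.R711.GP.head_one v

theorem hdA_excl {u v : V} (h1 : u ≠ v) (h2 : ¬ G.Adj u v) (p : RAAG G.Adj) (h : hdA G u p ≠ 1) :
    hdA G v p = 1 := head_excl h1 h2 _ h

/-- length -/
noncomputable def lenA (p : RAAG G.Adj) : ℕ := len (Phi G p)

theorem lenA_mul (v : V) (k : ℤ) (p : RAAG G.Adj) (hp : hdA G v p = 1) :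
    lenA G (gen G.Adj v ^ k * p) = lenA G p + if k = 0 then 0 else 1 := by
  by_cases hk : k = 0
  · subst hk
    rw [zpow_zero, one_mul, if_pos rfl, add_zero]
  · rw [if_neg hk]
    unfold lenA
    rw [map_mul, Phi_zpow]
    refine len_mul_one (M := fun _ : V => Multiplicative ℤ) (fun h => hk ?_) hp
    exact Multiplicative.ofAdd.injective h

theorem lenA_inv_le (p : RAAG G.Adj) : lenA G p⁻¹ ≤ lenA G p := by
  obtain ⟨w, hw, hwp⟩ := exists_red (Phi G p)
  let w' : List (Σ _ : V, Multiplicative ℤ) := (w.map (fun l => ⟨l.1, l.2⁻¹⟩)).reverse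
  have key : ∀ u : List (Σ _ : V, Multiplicative ℤ),
      ev (G := G) u * ev (G := G) (M := fun _ : V => Multiplicative ℤ)
        ((u.map (fun l => (⟨l.1, l.2⁻¹⟩ : Σ _ : V, Multiplicative ℤ))).reverse) = 1 := by
    intro u
    induction u with
    | nil => simp
    | cons l u ih =>
      rw [List.map_cons, List.reverse_cons, ev_append, ev_cons, ev_cons, ev_nil, mul_one]
      rw [mul_assoc, ← mul_assoc (ev u), ih, one_mul, ← ι_mul, mul_inv_cancel, ι_one]
  have h1 : Phi G p⁻¹ = ev (G := G) w' := by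
    have h2 : Phi G p⁻¹ * Phi G p = 1 := by rw [← map_mul, inv_mul_cancel, map_one]
    have h3 := key w
    rw [hwp] at h3
    exact left_inv_eq_right_inv h2 h3
  unfold lenA
  rw [h1, ← hwp, len_red hw]
  refine (len_le w').trans ?_
  simp [w']

theorem lenA_inv (p : RAAG G.Adj) : lenA G p⁻¹ = lenA G p :=
  le_antisymm (lenA_inv_le G p) (by simpa using lenA_inv_le G p⁻¹)

/-- the one-letter word -/
def lw (v : V) (k : ℤ) : List (Σ _ : V, Multiplicative ℤ) :=
  if k = 0 then [] else [⟨v, Multiplicative.ofAdd k⟩]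

theorem ev_lw (v : V) (k : ℤ) :
    ev (G := G) (M := fun _ : V => Multiplicative ℤ) (lw v k) = ih G v (Multiplicative.ofAdd k) := by
  unfold lw
  split_ifs with h
  · subst h
    rw [ev_nil]
    exact (map_one (ih G v)).symm
  · rw [ev_cons, ev_nil, mul_one]; rfl

theorem length_lw (v : V) (k : ℤ) : (lw v k).length = if k = 0 then 0 else 1 := by
  unfold lw
  split_ifs <;> rfl

theorem red_ext {u v : V} (huv : G.Adj u v) (h : RAAG G.Adj) (hu : hdA G u h⁻¹ = 1)
    (hv : hdA G v h⁻¹ = 1) (w : List (Σ _ : V, Multiplicative ℤ)) (hw : Red G w)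
    (hwh : ev (G := G) (M := fun _ : V => Multiplicative ℤ) w = Phi G h) (k l : ℤ) :
    Red G (M := fun _ : V => Multiplicative ℤ) (w ++ (lw u k ++ lw v l)) ∧
    ev (G := G) (M := fun _ : V => Multiplicative ℤ) (w ++ (lw u k ++ lw v l)) =
      Phi G (h * gen G.Adj u ^ k * gen G.Adj v ^ l) := by
  have e1 : ev (G := G) (M := fun _ : V => Multiplicative ℤ) (w ++ (lw u k ++ lw v l)) =
      Phi G (h * gen G.Adj u ^ k * gen G.Adj v ^ l) := by
    rw [ev_append, ev_append, hwh, ev_lw, ev_lw, map_mul, map_mul, Phi_zpow, Phi_zpow, mul_assoc]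
  refine ⟨?_, e1⟩
  apply red_of_min
  rw [e1]
  change _ ≤ lenA G _
  rw [← lenA_inv]
  have e2 : (h * gen G.Adj u ^ k * gen G.Adj v ^ l)⁻¹ =
      gen G.Adj v ^ (-l) * (gen G.Adj u ^ (-k) * h⁻¹) := by
    rw [zpow_neg, zpow_neg]; group
  rw [e2, lenA_mul, lenA_mul _ _ _ _ hu, lenA_inv]
  · have e3 : lenA G h = w.length := by
      unfold lenA
      rw [← hwh, len_red hw]
    rw [e3, List.length_append, List.length_append, length_lw, length_lw]
    simp only [neg_eq_zero]
    omega
  · rw [hdA_adj G huv]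
    exact hv

/-- **the colours of the elements of a flat** -/
theorem flat {u v : V} (huv : G.Adj u v) (h : RAAG G.Adj) (hu : hdA G u h⁻¹ = 1)
    (hv : hdA G v h⁻¹ = 1) (k l : ℤ) (β : V)
    (hβ : hdA G β (h * gen G.Adj u ^ k * gen G.Adj v ^ l) ≠ 1) :
    hdA G β (h * gen G.Adj u ^ (1 : ℤ) * gen G.Adj v ^ (1 : ℤ)) ≠ 1 := by
  obtain ⟨w, hw, hwh⟩ := exists_red (Phi G h)
  obtain ⟨r1, r2⟩ := red_ext G huv h hu hv w hw hwh k l
  obtain ⟨s1, s2⟩ := red_ext G huv h hu hv w hw hwh 1 1
  unfold hdA at hβ ⊢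
  by_cases hc : ∀ x ∈ w, G.Adj x.1 β
  · rw [← r2, ev_append, head_link hc] at hβ
    rw [← s2, ev_append, head_link hc]
    have hb : β = u ∨ β = v := by
      by_contra hne
      push Not at hne
      apply hβ
      rw [ev_append, ev_lw, ev_lw, ← Phi_zpow, ← Phi_zpow, ← map_mul]
      change hdA G β _ = 1
      by_cases h1 : G.Adj u β
      · rw [hdA_adj G h1]
        by_cases h2 : G.Adj v β
        · rw [← mul_one (gen G.Adj v ^ l), hdA_adj G h2, hdA_one]
        · by_cases hl : l = 0
          · subst hl; rw [zpow_zero, hdA_one]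
          · rw [← mul_one (gen G.Adj v ^ l)]
            apply hdA_ne G hne.2 h2
            rw [hdA_one, mul_one]
            exact fun h => hl (Multiplicative.ofAdd.injective h)
      · by_cases hk : k = 0
        · subst hk
          rw [zpow_zero, one_mul]
          by_cases h2 : G.Adj v β
          · rw [← mul_one (gen G.Adj v ^ l), hdA_adj G h2, hdA_one]
          · by_cases hl : l = 0
            · subst hl; rw [zpow_zero, hdA_one]
            · rw [← mul_one (gen G.Adj v ^ l)]
              apply hdA_ne G hne.2 h2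
              rw [hdA_one, mul_one]
              exact fun h => hl (Multiplicative.ofAdd.injective h)
        · apply hdA_ne G hne.1 h1
          rw [← mul_one (gen G.Adj v ^ l), hdA_adj G huv.symm, hdA_one, mul_one]
          exact fun h => hk (Multiplicative.ofAdd.injective h)
    rw [ev_append, ev_lw, ev_lw, ← Phi_zpow, ← Phi_zpow, ← map_mul]
    change hdA G β _ ≠ 1
    rcases hb with rfl | rfl
    · rw [hdA_self, ← mul_one (gen G.Adj v ^ (1 : ℤ)), hdA_adj G huv.symm, hdA_one, mul_one]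
      exact fun h => one_ne_zero (Multiplicative.ofAdd.injective h)
    · rw [hdA_adj G huv, ← mul_one (gen G.Adj β ^ (1 : ℤ)), hdA_self, hdA_one, mul_one]
      exact fun h => one_ne_zero (Multiplicative.ofAdd.injective h)
  · rw [← r2, head_red r1, hd_block hc] at hβ
    rw [← s2, head_red s1, hd_block hc]
    exact hβ

/-- right decomposition -/
theorem rdec {u v : V} (huv : G.Adj u v) (p : RAAG G.Adj) :
    ∃ (h : RAAG G.Adj) (k l : ℤ), hdA G u h⁻¹ = 1 ∧ hdA G v h⁻¹ = 1 ∧
      p = h * gen G.Adj u ^ k * gen G.Adj v ^ l := by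
  set l := Multiplicative.toAdd (hdA G v p⁻¹) with hl
  set k := Multiplicative.toAdd (hdA G u p⁻¹) with hk
  refine ⟨(gen G.Adj u ^ (-k) * (gen G.Adj v ^ (-l) * p⁻¹))⁻¹, -k, -l, ?_, ?_, ?_⟩
  · rw [inv_inv, hdA_self, hdA_adj G huv.symm, hk, ofAdd_neg, ofAdd_toAdd, inv_mul_cancel]
  · rw [inv_inv, hdA_adj G huv, hdA_self, hl, ofAdd_neg, ofAdd_toAdd, inv_mul_cancel]
  · group

/-- all colours of a flat lie in a clique -/
theorem flat_clique {u v : V} (huv : G.Adj u v) (p : RAAG G.Adj) :
    ∃ C : Set V, (∀ a ∈ C, ∀ b ∈ C, a = b ∨ G.Adj a b) ∧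
      ∀ (k l : ℤ) (β : V), hdA G β (p * gen G.Adj u ^ k * gen G.Adj v ^ l) ≠ 1 → β ∈ C := by
  obtain ⟨h, k0, l0, hu, hv, rfl⟩ := rdec G huv p
  refine ⟨{β | hdA G β (h * gen G.Adj u ^ (1 : ℤ) * gen G.Adj v ^ (1 : ℤ)) ≠ 1}, ?_, ?_⟩
  · intro a ha b hb
    by_contra hne
    push Not at hne
    exact hb (hdA_excl G hne.1 hne.2 _ ha)
  · intro k l β hβ
    refine flat G huv h hu hv (k0 + k) (l0 + l) β ?_
    have hc : gen G.Adj v ^ l0 * gen G.Adj u ^ k = gen G.Adj u ^ k * gen G.Adj v ^ l0 := by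
      have h1 : Commute (gen G.Adj v) (gen G.Adj u) :=
        Pool.Agent.W304.DU.RG.gen_comm G.Adj v u huv.symm
      exact h1.zpow_zpow _ _
    have : h * gen G.Adj u ^ (k0 + k) * gen G.Adj v ^ (l0 + l) =
        h * gen G.Adj u ^ k0 * gen G.Adj v ^ l0 * gen G.Adj u ^ k * gen G.Adj v ^ l := by
      rw [zpow_add, zpow_add]
      simp only [mul_assoc]
      rw [← mul_assoc (gen G.Adj v ^ l0) (gen G.Adj u ^ k), hc]
      simp only [mul_assoc]
    rw [this]
    exact hβ

/-- the colours of `s_u^k s_v^l` -/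
theorem flat_one {u v : V} (huv : G.Adj u v) (k l : ℤ) (β : V)
    (hβ : hdA G β (gen G.Adj u ^ k * gen G.Adj v ^ l) ≠ 1) : β = u ∨ β = v := by
  have h1 := flat G huv 1 (by rw [inv_one, hdA_one]) (by rw [inv_one, hdA_one]) k l β
    (by rw [one_mul]; exact hβ)
  rw [one_mul] at h1
  by_contra hne
  push Not at hne
  apply h1
  by_cases h1 : G.Adj u β
  · rw [hdA_adj G h1]
    by_cases h2 : G.Adj v β
    · rw [← mul_one (gen G.Adj v ^ (1 : ℤ)), hdA_adj G h2, hdA_one]
    · rw [← mul_one (gen G.Adj v ^ (1 : ℤ))]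
      apply hdA_ne G hne.2 h2
      rw [hdA_one, mul_one]
      exact fun h => one_ne_zero (Multiplicative.ofAdd.injective h)
  · apply hdA_ne G hne.1 h1
    rw [← mul_one (gen G.Adj v ^ (1 : ℤ)), hdA_adj G huv.symm, hdA_one, mul_one]
    exact fun h => one_ne_zero (Multiplicative.ofAdd.injective h)

/-- the colours of `s_v^k` -/
theorem col_pow (v : V) (k : ℤ) (β : V) (hβ : hdA G β (gen G.Adj v ^ k) ≠ 1) : β = v := by
  by_contra hne
  apply hβ
  by_cases hk : k = 0
  · subst hk; rw [zpow_zero, hdA_one]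
  rw [← mul_one (gen G.Adj v ^ k)]
  by_cases h2 : G.Adj v β
  · rw [hdA_adj G h2, hdA_one]
  · apply hdA_ne G hne h2
    rw [hdA_one, mul_one]
    exact fun h => hk (Multiplicative.ofAdd.injective h)

/-- the height on the graph product -/
noncomputable def htG : GPZ G →* Multiplicative ℤ :=
  Con.lift (conGen (Pool.Agent.R711.GP.Rel G (fun _ : V => Multiplicative ℤ)))
    (FreeMonoid.lift (fun l : (Σ _ : V, Multiplicative ℤ) => l.2)) (by
      rw [Con.conGen_le]
      intro x y h
      rw [Con.ker_rel]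
      cases h with
      | mul α a b => simp
      | one α => simp
      | comm α β a b h => simp [mul_comm])

theorem htG_ih (v : V) (m : Multiplicative ℤ) : htG G (ih G v m) = m := by
  change FreeMonoid.lift (fun l : (Σ _ : V, Multiplicative ℤ) => l.2) (FreeMonoid.of ⟨v, m⟩) = m
  simp

theorem htG_Phi (p : RAAG G.Adj) : htG G (Phi G p) = ht G.Adj p := by
  have : (htG G).comp (Phi G) = ht G.Adj := by
    apply PresentedGroup.ext
    intro v
    change htG G (Phi G (gen G.Adj v)) = ht G.Adj (gen G.Adj v)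
    rw [ht_gen]
    have := Phi_zpow G v 1
    rw [zpow_one] at this
    rw [this, htG_ih]
  exact DFunLike.congr_fun this p

theorem exists_col (p : RAAG G.Adj) (hp : ht G.Adj p ≠ 1) : ∃ v, hdA G v p ≠ 1 := by
  by_contra hne
  push Not at hne
  apply hp
  rw [← htG_Phi]
  obtain ⟨w, hw, hwp⟩ := exists_red (Phi G p)
  cases w with
  | nil => rw [← hwp, ev_nil, map_one]
  | cons l w =>
    exfalso
    have h1 := hne l.1
    unfold hdA at h1
    rw [← hwp, head_red hw] at h1
    obtain ⟨v, m⟩ := l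
    rw [Pool.Agent.R711.GP.hd_self] at h1
    exact hw.1 h1

open Classical in
/-- the colour -/
noncomputable def col [Nonempty V] (p : RAAG G.Adj) : V :=
  if h : ∃ v, hdA G v p ≠ 1 then h.choose else Classical.arbitrary V

theorem col_spec [Nonempty V] (p : RAAG G.Adj) (hp : ht G.Adj p ≠ 1) : hdA G (col G p) p ≠ 1 := by
  have h := exists_col G p hp
  unfold col
  rw [dif_pos h]
  exact h.choose_spec

end

end Pool.Agent.N271.HC
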