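import Pool.Agent.N271.HC.Fp1

set_option autoImplicit false
set_option linter.unusedSectionVars false

/-! # The fibre product is not of type `FP₂` -/

namespace Pool.Agent.N271.HC

open CategoryTheory Pool.Agent.W326.DU Pool.Agent.Y66.HC Pool.Agent.Y448.HC

section
variable {ι : Type} [Fintype ι] [DecidableEq ι] {Q : Type} [Group Q] (q : ι → Q)

/-- the projection to `Q` -/
def pi1 : G1 q →* Q := HNNExtension.lift (MonoidHom.snd (FreeGroup ι) Q) 1 (fun a => by simp)

theorem pi1_of (b : FreeGroup ι × Q) : pi1 q (ofB q b) = b.2 := HNNExtension.lift_of _ _ _ _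

theorem pi1_tt : pi1 q (tt q) = 1 := HNNExtension.lift_t _ _ _

/-- the retraction to `F` -/
def rho1 : G1 q →* FreeGroup ι :=
  HNNExtension.lift (MonoidHom.fst (FreeGroup ι) Q) 1 (fun a => by simp)

theorem rho1_of (b : FreeGroup ι × Q) : rho1 q (ofB q b) = b.1 := HNNExtension.lift_of _ _ _ _

theorem pi1_surj : Function.Surjective (pi1 q) := fun y => ⟨ofB q (1, y), pi1_of q _⟩

/-- generators of the kernel -/
def K0 : Subgroup (G1 q) :=
  Subgroup.closure (Set.range (fun i => ofB q (FreeGroup.of i, 1)) ∪ {tt q})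

theorem ofF_mem (H : Subgroup (G1 q)) (h : ∀ i, ofB q (FreeGroup.of i, 1) ∈ H) (w : FreeGroup ι) :
    ofB q (w, 1) ∈ H := by
  induction w using FreeGroup.induction_on with
  | C1 =>
    have : ((1 : FreeGroup ι), (1 : Q)) = 1 := rfl
    rw [this, map_one]; exact one_mem _
  | of i => exact h i
  | inv_of i h =>
    have : (((FreeGroup.of i)⁻¹, 1) : FreeGroup ι × Q) = (FreeGroup.of i, 1)⁻¹ := by
      simp
    rw [this, map_inv]; exact inv_mem h
  | mul a b ha hb =>
    have : ((a * b, 1) : FreeGroup ι × Q) = (a, 1) * (b, 1) := by simp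
    rw [this, map_mul]; exact mul_mem ha hb

theorem ofF_K0 (w : FreeGroup ι) : ofB q (w, 1) ∈ K0 q :=
  ofF_mem q _ (fun i => Subgroup.subset_closure (Or.inl ⟨i, rfl⟩)) w

theorem tt_K0 : tt q ∈ K0 q := Subgroup.subset_closure (Or.inr rfl)

theorem split_of (w : FreeGroup ι) (y : Q) : ofB q (w, y) = ofB q (w, 1) * ofB q (1, y) := by
  rw [← map_mul]; simp

theorem split_of' (w : FreeGroup ι) (y : Q) : ofB q (w, y) = ofB q (1, y) * ofB q (w, 1) := by
  rw [← map_mul]; simp

theorem conj_K0 (w : FreeGroup ι) (k : G1 q) (hk : k ∈ K0 q) :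
    ofB q (1, FreeGroup.lift q w) * k * (ofB q (1, FreeGroup.lift q w))⁻¹ ∈ K0 q := by
  set y := FreeGroup.lift q w with hy
  unfold K0 at hk
  induction hk using Subgroup.closure_induction with
  | mem k hk =>
    rcases hk with ⟨i, rfl⟩ | hk
    · dsimp only
      rw [← split_of', split_of, mul_inv_cancel_right]
      exact ofF_K0 q _
    · rw [Set.mem_singleton_iff] at hk
      subst hk
      have h1 := tt_comm q w
      rw [← hy] at h1
      have h2 : ofB q (1, y) = (ofB q (w, 1))⁻¹ * ofB q (w, y) := by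
        rw [split_of q w y, inv_mul_cancel_left]
      have h3 : ofB q (1, y) * tt q * (ofB q (1, y))⁻¹ =
          (ofB q (w, 1))⁻¹ * tt q * ofB q (w, 1) := by
        rw [h2, mul_assoc _ (ofB q (w, y)) (tt q), ← h1]
        group
      rw [h3]
      exact mul_mem (mul_mem (inv_mem (ofF_K0 q w)) (tt_K0 q)) (ofF_K0 q w)
  | one => simp [one_mem]
  | mul a b _ _ ha hb =>
    have : ofB q (1, y) * (a * b) * (ofB q (1, y))⁻¹ = (ofB q (1, y) * a * (ofB q (1, y))⁻¹) *
        (ofB q (1, y) * b * (ofB q (1, y))⁻¹) := by group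
    rw [this]; exact mul_mem ha hb
  | inv a _ ha =>
    have : ofB q (1, y) * a⁻¹ * (ofB q (1, y))⁻¹ = (ofB q (1, y) * a * (ofB q (1, y))⁻¹)⁻¹ := by
      group
    rw [this]; exact inv_mem ha

theorem decomp (hq : Function.Surjective (FreeGroup.lift q)) (g : G1 q) :
    ∃ k ∈ K0 q, ∃ y : Q, g = k * ofB q (1, y) := by
  have hmulc : ∀ y y' : Q, ofB q (1, y * y') = ofB q (1, y) * ofB q (1, y') := by
    intro y y'; rw [← map_mul]; simp
  have hinv : ∀ y : Q, ofB q (1, y⁻¹) = (ofB q (1, y))⁻¹ := by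
    intro y; rw [← map_inv]; simp
  induction g using HNNExtension.induction_on with
  | of b => exact ⟨ofB q (b.1, 1), ofF_K0 q _, b.2, split_of q b.1 b.2⟩
  | t =>
    refine ⟨tt q, tt_K0 q, 1, ?_⟩
    have : ((1 : FreeGroup ι), (1 : Q)) = 1 := rfl
    rw [this, map_one, mul_one]; rfl
  | mul a b ha hb =>
    obtain ⟨k, hk, y, rfl⟩ := ha
    obtain ⟨k', hk', y', rfl⟩ := hb
    obtain ⟨w, rfl⟩ := hq y
    refine ⟨k * (ofB q (1, FreeGroup.lift q w) * k' * (ofB q (1, FreeGroup.lift q w))⁻¹),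
      mul_mem hk (conj_K0 q w k' hk'), FreeGroup.lift q w * y', ?_⟩
    rw [hmulc]
    group
  | inv a ha =>
    obtain ⟨k, hk, y, rfl⟩ := ha
    obtain ⟨w, hw⟩ := hq y⁻¹
    refine ⟨ofB q (1, FreeGroup.lift q w) * k⁻¹ * (ofB q (1, FreeGroup.lift q w))⁻¹,
      conj_K0 q w k⁻¹ (inv_mem hk), y⁻¹, ?_⟩
    rw [hw, hinv]
    group

theorem ker_pi1 (hq : Function.Surjective (FreeGroup.lift q)) : (pi1 q).ker = K0 q := by
  have hle : K0 q ≤ (pi1 q).ker := by
    unfold K0
    rw [Subgroup.closure_le]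
    rintro _ (⟨i, rfl⟩ | h)
    · rw [SetLike.mem_coe, MonoidHom.mem_ker, pi1_of]
    · rw [Set.mem_singleton_iff] at h
      rw [h, SetLike.mem_coe, MonoidHom.mem_ker, pi1_tt]
  refine le_antisymm ?_ hle
  intro g hg
  obtain ⟨k, hk, y, rfl⟩ := decomp q hq g
  have h1 : pi1 q (k * ofB q (1, y)) = 1 := hg
  rw [map_mul, pi1_of, (hle hk : pi1 q k = 1), one_mul] at h1
  change y = 1 at h1
  subst h1
  exact mul_mem hk (ofF_K0 q 1)

theorem fg_ker (hq : Function.Surjective (FreeGroup.lift q)) : Group.FG (pi1 q).ker := by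
  rw [Group.fg_iff_subgroup_fg, ker_pi1 q hq]
  unfold K0
  rw [Subgroup.fg_iff]
  exact ⟨_, rfl, (Set.finite_range _).union (Set.finite_singleton _)⟩

end

end Pool.Agent.N271.HC
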