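import Pool.Agent.Y66.HC.Defs

/-!
# Statements of the remaining parts for S01246 (MP_3ca9d5_al)
-/

set_option autoImplicit false

namespace Pool.Agent.N271.HC

open Pool.Agent.W326.DU Pool.Agent.Y66.HC

section
variable {V : Type} (ad : V → V → Prop)

/-- the height homomorphism of a right-angled Artin group, `s_v ↦ 1` -/
def ht : RAAG ad →* Multiplicative ℤ :=
  PresentedGroup.toGroup (f := fun _ => Multiplicative.ofAdd 1) (by
    rintro _ ⟨a, b, _, rfl⟩
    simp)

theorem ht_gen (v : V) : ht ad (gen ad v) = Multiplicative.ofAdd 1 := PresentedGroup.toGroup.of _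

/-- the Bestvina–Brady group -/
abbrev BB : Subgroup (RAAG ad) := (ht ad).ker

end

/-- **FP3**: the Bestvina–Brady group of a `K₄`-free graph with acyclic clique complex is of
type `FP_3` (in fact `FP`). -/
def PropHFP3 : Prop := ∀ (V : Type) [Fintype V] [DecidableEq V] [Nonempty V]
  (ad : V → V → Prop), (∀ a b, ad a b → ad b a) → (∀ a, ¬ ad a a) →
  (∀ a b c d, ad a b → ad a c → ad a d → ad b c → ad b d → ¬ ad c d) → Acyc ad →
  FPc 3 (BB ad)

/-- **NFP**: the Bestvina–Brady group is not finitely presented when there is a cocycle with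
nontrivial holonomy. -/
def PropHNFP : Prop := ∀ (V J : Type) [Fintype V] [DecidableEq V] [Group J]
  (ad : V → V → Prop) (γ : V → V → J) (l : ℕ) (p : ℕ → V), GrData ad γ l p →
  ∃ q : V × V → BB ad, Function.Surjective (FreeGroup.lift q) ∧
    ¬ ∃ T : Finset (FreeGroup (V × V)), Subgroup.normalClosure (T : Set (FreeGroup (V × V))) =
      (FreeGroup.lift q).ker

end Pool.Agent.N271.HC
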