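import Pool.Agent.N271.HC.Hol

set_option autoImplicit false
set_option linter.unusedSectionVars false

/-! # Generators of the Bestvina–Brady group -/

namespace Pool.Agent.N271.HC

open Pool.Agent.W326.DU Pool.Agent.Y66.HC

section
variable {V : Type} [Nonempty V] (G : SimpleGraph V)

/-- the subgroup generated by the `s_u s_v⁻¹` -/
def HG : Subgroup (RAAG G.Adj) :=
  Subgroup.closure (Set.range (fun x : V × V => gen G.Adj x.1 * (gen G.Adj x.2)⁻¹))

theorem HG_mem (a b : V) : gen G.Adj a * (gen G.Adj b)⁻¹ ∈ HG G :=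
  Subgroup.subset_closure ⟨(a, b), rfl⟩

theorem HG_mem' (hconn : ∀ a b, Relation.ReflTransGen G.Adj a b) (a b : V) :
    (gen G.Adj a)⁻¹ * gen G.Adj b ∈ HG G := by
  induction hconn a b with
  | refl => rw [inv_mul_cancel]; exact one_mem _
  | @tail b c _ hbc ih =>
    have hc : Commute (gen G.Adj b) (gen G.Adj c) :=
      Pool.Agent.W304.DU.RG.gen_comm G.Adj b c hbc
    have : (gen G.Adj a)⁻¹ * gen G.Adj c =
        ((gen G.Adj a)⁻¹ * gen G.Adj b) * (gen G.Adj c * (gen G.Adj b)⁻¹) := by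
      rw [← hc.symm.inv_right.eq |>.symm]
      group
    rw [this]
    exact mul_mem ih (HG_mem G _ _)

/-- conjugation of the generators coming from edges -/
theorem HG_conj_edge (hconn : ∀ a b, Relation.ReflTransGen G.Adj a b) {u v : V} (huv : G.Adj u v)
    (w : V) : gen G.Adj w * (gen G.Adj u * (gen G.Adj v)⁻¹) * (gen G.Adj w)⁻¹ ∈ HG G ∧
      (gen G.Adj w)⁻¹ * (gen G.Adj u * (gen G.Adj v)⁻¹) * gen G.Adj w ∈ HG G := by
  have hc : Commute (gen G.Adj u) (gen G.Adj v) :=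
    Pool.Agent.W304.DU.RG.gen_comm G.Adj u v huv
  have h1 : Commute (gen G.Adj u) (gen G.Adj u * (gen G.Adj v)⁻¹) :=
    (Commute.refl _).mul_right hc.inv_right
  set x := gen G.Adj u * (gen G.Adj v)⁻¹ with hx
  have hxm : x ∈ HG G := HG_mem G u v
  constructor
  · have : gen G.Adj w * x * (gen G.Adj w)⁻¹ =
        (gen G.Adj w * (gen G.Adj u)⁻¹) * x * (gen G.Adj w * (gen G.Adj u)⁻¹)⁻¹ := by
      have h2 : (gen G.Adj u)⁻¹ * x * gen G.Adj u = x := by
        rw [mul_assoc, ← h1.eq, inv_mul_cancel_left]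
      calc gen G.Adj w * x * (gen G.Adj w)⁻¹ =
          gen G.Adj w * ((gen G.Adj u)⁻¹ * x * gen G.Adj u) * (gen G.Adj w)⁻¹ := by rw [h2]
        _ = _ := by group
    rw [this]
    exact mul_mem (mul_mem (HG_mem G _ _) hxm) (inv_mem (HG_mem G _ _))
  · have : (gen G.Adj w)⁻¹ * x * gen G.Adj w =
        ((gen G.Adj u)⁻¹ * gen G.Adj w)⁻¹ * x * ((gen G.Adj u)⁻¹ * gen G.Adj w) := by
      have h2 : gen G.Adj u * x * (gen G.Adj u)⁻¹ = x := by
        rw [h1.eq, mul_inv_cancel_right]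
      calc (gen G.Adj w)⁻¹ * x * gen G.Adj w =
          (gen G.Adj w)⁻¹ * (gen G.Adj u * x * (gen G.Adj u)⁻¹) * gen G.Adj w := by rw [h2]
        _ = _ := by group
    rw [this]
    exact mul_mem (mul_mem (inv_mem (HG_mem' G hconn _ _)) hxm) (HG_mem' G hconn _ _)

theorem HG_conj (hconn : ∀ a b, Relation.ReflTransGen G.Adj a b) (a b w : V) :
    gen G.Adj w * (gen G.Adj a * (gen G.Adj b)⁻¹) * (gen G.Adj w)⁻¹ ∈ HG G ∧
      (gen G.Adj w)⁻¹ * (gen G.Adj a * (gen G.Adj b)⁻¹) * gen G.Adj w ∈ HG G := by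
  induction hconn a b with
  | refl =>
    rw [mul_inv_cancel, mul_one, mul_inv_cancel, mul_one, inv_mul_cancel]
    exact ⟨one_mem _, one_mem _⟩
  | @tail b c _ hbc ih =>
    obtain ⟨h1, h2⟩ := HG_conj_edge G hconn hbc w
    constructor
    · have : gen G.Adj w * (gen G.Adj a * (gen G.Adj c)⁻¹) * (gen G.Adj w)⁻¹ =
          (gen G.Adj w * (gen G.Adj a * (gen G.Adj b)⁻¹) * (gen G.Adj w)⁻¹) *
            (gen G.Adj w * (gen G.Adj b * (gen G.Adj c)⁻¹) * (gen G.Adj w)⁻¹) := by group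
      rw [this]
      exact mul_mem ih.1 h1
    · have : (gen G.Adj w)⁻¹ * (gen G.Adj a * (gen G.Adj c)⁻¹) * gen G.Adj w =
          ((gen G.Adj w)⁻¹ * (gen G.Adj a * (gen G.Adj b)⁻¹) * gen G.Adj w) *
            ((gen G.Adj w)⁻¹ * (gen G.Adj b * (gen G.Adj c)⁻¹) * gen G.Adj w) := by group
      rw [this]
      exact mul_mem ih.2 h2

theorem HG_conj_all (hconn : ∀ a b, Relation.ReflTransGen G.Adj a b) (w : V) (x : RAAG G.Adj)
    (hx : x ∈ HG G) : gen G.Adj w * x * (gen G.Adj w)⁻¹ ∈ HG G ∧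
      (gen G.Adj w)⁻¹ * x * gen G.Adj w ∈ HG G := by
  unfold HG at hx
  induction hx using Subgroup.closure_induction with
  | mem x hx =>
    obtain ⟨⟨a, b⟩, rfl⟩ := hx
    exact HG_conj G hconn a b w
  | one =>
    rw [mul_one, mul_inv_cancel, mul_one, inv_mul_cancel]
    exact ⟨one_mem _, one_mem _⟩
  | mul x y _ _ hx hy =>
    constructor
    · have : gen G.Adj w * (x * y) * (gen G.Adj w)⁻¹ =
        (gen G.Adj w * x * (gen G.Adj w)⁻¹) * (gen G.Adj w * y * (gen G.Adj w)⁻¹) := by group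
      rw [this]; exact mul_mem hx.1 hy.1
    · have : (gen G.Adj w)⁻¹ * (x * y) * gen G.Adj w =
        ((gen G.Adj w)⁻¹ * x * gen G.Adj w) * ((gen G.Adj w)⁻¹ * y * gen G.Adj w) := by group
      rw [this]; exact mul_mem hx.2 hy.2
  | inv x _ hx =>
    constructor
    · have : gen G.Adj w * x⁻¹ * (gen G.Adj w)⁻¹ = (gen G.Adj w * x * (gen G.Adj w)⁻¹)⁻¹ := by group
      rw [this]; exact inv_mem hx.1
    · have : (gen G.Adj w)⁻¹ * x⁻¹ * gen G.Adj w = ((gen G.Adj w)⁻¹ * x * gen G.Adj w)⁻¹ := by group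
      rw [this]; exact inv_mem hx.2

theorem HG_normal (hconn : ∀ a b, Relation.ReflTransGen G.Adj a b) : (HG G).Normal := by
  constructor
  intro x hx g
  have hg : g ∈ Subgroup.closure (Set.range (gen G.Adj)) := by
    rw [show Subgroup.closure (Set.range (gen G.Adj)) = ⊤ from
      PresentedGroup.closure_range_of (rels G.Adj)]
    trivial
  have key : (∀ x ∈ HG G, g * x * g⁻¹ ∈ HG G) ∧ (∀ x ∈ HG G, g⁻¹ * x * g ∈ HG G) := by
    clear hx
    induction hg using Subgroup.closure_induction with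
    | mem g hg =>
      obtain ⟨w, rfl⟩ := hg
      exact ⟨fun x hx => (HG_conj_all G hconn w x hx).1, fun x hx => (HG_conj_all G hconn w x hx).2⟩
    | one => simp
    | mul a b _ _ ha hb =>
      constructor
      · intro x hx
        have : a * b * x * (a * b)⁻¹ = a * (b * x * b⁻¹) * a⁻¹ := by group
        rw [this]; exact ha.1 _ (hb.1 _ hx)
      · intro x hx
        have : (a * b)⁻¹ * x * (a * b) = b⁻¹ * (a⁻¹ * x * a) * b := by group
        rw [this]; exact hb.2 _ (ha.2 _ hx)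
    | inv a _ ha =>
      constructor
      · intro x hx
        rw [inv_inv]; exact ha.2 _ hx
      · intro x hx
        rw [inv_inv]; exact ha.1 _ hx
  exact key.1 x hx

theorem HG_dec (hconn : ∀ a b, Relation.ReflTransGen G.Adj a b) (o : V) (g : RAAG G.Adj) :
    ∃ h ∈ HG G, g = h * gen G.Adj o ^ (hz G g) := by
  haveI := HG_normal G hconn
  have hg : g ∈ Subgroup.closure (Set.range (gen G.Adj)) := by
    rw [show Subgroup.closure (Set.range (gen G.Adj)) = ⊤ from
      PresentedGroup.closure_range_of (rels G.Adj)]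
    trivial
  have key : (QuotientGroup.mk g : RAAG G.Adj ⧸ HG G) =
      QuotientGroup.mk (gen G.Adj o ^ (hz G g)) := by
    induction hg using Subgroup.closure_induction with
    | mem g hg =>
      obtain ⟨w, rfl⟩ := hg
      rw [hz_gen, zpow_one, eq_comm, QuotientGroup.eq]
      exact HG_mem' G hconn _ _
    | one =>
      have : hz G 1 = 0 := rfl
      rw [this, zpow_zero]
    | mul a b _ _ ha hb =>
      rw [QuotientGroup.mk_mul, ha, hb, hz_mul, zpow_add, QuotientGroup.mk_mul]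
    | inv a _ ha =>
      rw [QuotientGroup.mk_inv, ha, hz_inv, zpow_neg, QuotientGroup.mk_inv]
  refine ⟨g * (gen G.Adj o ^ (hz G g))⁻¹, ?_, by group⟩
  rw [← QuotientGroup.eq_one_iff, QuotientGroup.mk_mul, key, QuotientGroup.mk_inv, mul_inv_cancel]

theorem qB_surj (hconn : ∀ a b, Relation.ReflTransGen G.Adj a b) :
    Function.Surjective (FreeGroup.lift (qB G)) := by
  rintro ⟨g, hg⟩
  obtain ⟨h, hh, he⟩ := HG_dec G hconn (Classical.arbitrary V) g
  have hg0 : hz G g = 0 := by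
    unfold hz
    rw [(hg : ht G.Adj g = 1)]; rfl
  rw [hg0, zpow_zero, mul_one] at he
  subst he
  have h1 : HG G ≤ (FreeGroup.lift (qB G)).range.map (BB G.Adj).subtype := by
    unfold HG
    rw [Subgroup.closure_le]
    rintro _ ⟨x, rfl⟩
    exact ⟨qB G x, ⟨FreeGroup.of x, by rw [FreeGroup.lift_apply_of]⟩, rfl⟩
  obtain ⟨y, ⟨r, hr⟩, hy⟩ := h1 hh
  exact ⟨r, hr.trans (Subtype.ext hy)⟩

end

theorem hnfp : PropHNFP := by
  intro V J _ _ _ ad γ l p h
  haveI : Nonempty V := ⟨p 0⟩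
  let G : SimpleGraph V := { Adj := ad, symm := ⟨h.symm⟩, loopless := ⟨h.irr⟩ }
  exact ⟨qB G, qB_surj G h.conn, not_fp G (γ := γ) h.coc p l h.path h.closed h.hol⟩

end Pool.Agent.N271.HC
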